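import Pool.Agent.helper79.WB.SpecII

set_option autoImplicit false

namespace Pool.Agent.WB

open MvPolynomial

theorem CLA_sm {N : ℕ} {ξ δ : ℝ} (hN : 1 ≤ N) (h : ξ + δ ≤ 1) {ζ : V3} (hb : Box N ξ δ ζ) :
    Sm N ζ := by
  obtain ⟨h0, h1, h2, h3⟩ := hb
  have hN' : (1 : ℝ) ≤ N := by exact_mod_cast hN
  have hle : (N : ℝ) ^ (ξ + δ) ≤ N := by
    calc (N : ℝ) ^ (ξ + δ) ≤ (N : ℝ) ^ (1 : ℝ) := Real.rpow_le_rpow_of_exponent_le hN' h
      _ = N := Real.rpow_one _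
  refine ⟨h3, ?_⟩
  have key : ∀ z : ℤ, |(z : ℝ)| ≤ N → |z| ≤ (N : ℤ) := by
    intro z hz
    exact_mod_cast hz
  intro i
  fin_cases i
  · exact key _ (h0.trans hle)
  · exact key _ (h1.trans hle)
  · exact key _ h2

theorem CLA_box {N : ℕ} {ξ δ δ' : ℝ} (hN : 1 ≤ N) (h : δ ≤ δ') {ζ : V3} (hb : Box N ξ δ ζ) :
    Box N ξ δ' ζ := by
  obtain ⟨h0, h1, h2, h3⟩ := hb
  have hN' : (1 : ℝ) ≤ N := by exact_mod_cast hN
  have hle : (N : ℝ) ^ (ξ + δ) ≤ (N : ℝ) ^ (ξ + δ') :=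
    Real.rpow_le_rpow_of_exponent_le hN' (by linarith)
  exact ⟨h0.trans hle, h1.trans hle, h2, h3⟩

theorem CLA_dt (ζ η : V3) : dt η ζ = - dt ζ η := by
  unfold dt
  ring

theorem CLA : CLA_stmt := by
  intro hDY hMU hMUN hVAN hCOMB hNUMA hNUMB hNUMC hPB ξ lam ε hlam hlx hx1 hε
  have hξ0 : 0 < ξ := hlam.trans hlx
  have hξ1 : ξ < 1 := by linarith
  obtain ⟨δB, hδB, NB, hPB⟩ := hPB ξ hξ0 hξ1 (ε / 2) (by linarith)
  obtain ⟨δ, hδ0, hδ1, hδ2, hδ3, hδ4, hδ5⟩ : ∃ δ : ℝ, 0 < δ ∧ δ ≤ δB ∧ 20 * δ ≤ ε ∧ 20 * δ ≤ lam ∧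
      ξ + δ ≤ 1 ∧ δ ≤ 1 := by
    refine ⟨min δB (min (ε / 20) (min (lam / 20) (min (1 - ξ) 1))), ?_, ?_, ?_, ?_, ?_, ?_⟩
    · have h1 : 0 < ε / 20 := by linarith
      have h2 : 0 < lam / 20 := by linarith
      have h3 : 0 < 1 - ξ := by linarith
      exact lt_min hδB (lt_min h1 (lt_min h2 (lt_min h3 one_pos)))
    · exact min_le_left _ _
    · have := (min_le_right δB (min (ε / 20) (min (lam / 20) (min (1 - ξ) 1)))).trans
        (min_le_left _ _)
      linarith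
    · have := ((min_le_right δB (min (ε / 20) (min (lam / 20) (min (1 - ξ) 1)))).trans
        (min_le_right _ _)).trans (min_le_left _ _)
      linarith
    · have := (((min_le_right δB (min (ε / 20) (min (lam / 20) (min (1 - ξ) 1)))).trans
        (min_le_right _ _)).trans (min_le_right _ _)).trans (min_le_left _ _)
      linarith
    · have := (((min_le_right δB (min (ε / 20) (min (lam / 20) (min (1 - ξ) 1)))).trans
        (min_le_right _ _)).trans (min_le_right _ _)).trans (min_le_right _ _)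
      linarith
  obtain ⟨N1, hN1⟩ := hMUN ξ δ hδ0
  obtain ⟨N2, hN2⟩ := hNUMA ξ lam δ hlam hlx hx1 hδ0 hδ5
  obtain ⟨N3, hN3⟩ := hNUMB ξ lam ε δ hlam hlx hx1 hε hδ0 hδ2
  obtain ⟨N4, hN4⟩ := hNUMC ξ lam ε δ hlam hlx hx1 hε hδ0 hδ2 hδ3
  refine ⟨δ, hδ0, NB + N1 + N2 + N3 + N4 + 2, ?_⟩
  intro N hN r hr hrN A B F hF hA hB hAc hBc hNPA hNPB hE hinj1 hinj2 hT
  by_contra hcon
  push Not at hcon
  have hN2' : 2 ≤ N := by omega
  have hN1' : 1 ≤ N := by omega
  have hNpos : (0 : ℝ) < N := by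
    have : 0 < N := by omega
    exact_mod_cast this
  have hFpos : 0 < F.card := by
    have h1 : (0 : ℝ) < (r : ℝ) * (N : ℝ) ^ (2 * ξ + 4 * lam - δ) := by
      have : (0 : ℝ) < r := by
        have : 0 < r := by omega
        exact_mod_cast this
      positivity
    have h2 := h1.trans_le hcon
    exact_mod_cast h2
  have hFne : F.Nonempty := Finset.card_pos.mp hFpos
  obtain ⟨θ, B', hθ1, hθA, hB'B, hdeg, he2, hFe⟩ := hDY A B F hFne hF
  set F' := F.filter (fun e => e.2 ∈ B') with hF'def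
  have hF'F : F' ⊆ F := Finset.filter_subset _ _
  have hB'c : (B'.card : ℝ) ≤ (N : ℝ) ^ (2 * ξ + 2 * lam + δ) := by
    refine le_trans ?_ hBc
    exact_mod_cast Finset.card_le_card hB'B
  obtain ⟨hθr, hθb⟩ := hN2 N (by omega) r A.card B'.card θ F'.card hr hθ1 hθA hAc hB'c he2 (by
    refine hcon.trans ?_
    exact_mod_cast hFe)
  obtain ⟨D, K, hD64, hDN, hDle, hK1, hK32, hKs, hKM⟩ := hN3 N (by omega) r A.card θ hr hθ1 hθA hrN
    hAc hθr
  have hM := hN1 N (by omega)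
  have hdeg' : ∀ η ∈ B', (F'.filter fun e => e.2 = η) = F.filter (fun e => e.2 = η) := by
    intro η hη
    ext e
    simp only [hF'def, Finset.mem_filter]
    constructor
    · rintro ⟨⟨h1, h2⟩, h3⟩
      exact ⟨h1, h3⟩
    · rintro ⟨h1, h3⟩
      exact ⟨⟨h1, by rw [h3]; exact hη⟩, h3⟩
  have hEdge : ∀ e ∈ F', e.1 ∈ A ∧ e.2 ∈ B' ∧ Edge N ξ e := by
    intro e he
    have he' := he
    rw [hF'def, Finset.mem_filter] at he'
    exact ⟨(hF e he'.1).1, he'.2, hE e he'.1⟩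
  have hSmA : ∀ ζ ∈ A, Sm N ζ := fun ζ hζ => CLA_sm hN1' hδ4 (hA ζ hζ).1
  have hSmB : ∀ ζ ∈ B', Sm N ζ := fun ζ hζ => CLA_sm hN1' hδ4 (hB ζ (hB'B hζ)).1
  have hLpos : (0 : ℝ) < (N : ℝ) ^ (ξ - δ) := Real.rpow_pos_of_pos hNpos _
  have hXpos : (0 : ℝ) ≤ (N : ℝ) ^ (ξ + δ) := (Real.rpow_pos_of_pos hNpos _).le
  have hMpos : (0 : ℝ) ≤ (N : ℝ) ^ (3 * δ) := (Real.rpow_pos_of_pos hNpos _).le
  -- multiplicities
  have hmul1 : ∀ (η : V3) (l : ℕ),
      ((F'.filter fun e => e.2 = η ∧ (dt e.1 e.2).natAbs = l).card : ℝ) ≤ (N : ℝ) ^ (3 * δ) := by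
    intro η l
    rcases (F'.filter fun e => e.2 = η ∧ (dt e.1 e.2).natAbs = l).eq_empty_or_nonempty with h0 | h0
    · rw [h0]
      simpa using hMpos
    · obtain ⟨e0, he0⟩ := h0
      rw [Finset.mem_filter] at he0
      have hηB : η ∈ B := by
        rw [← he0.2.1]
        exact hB'B (hEdge e0 he0.1).2.1
      have hcard : (F'.filter fun e => e.2 = η ∧ (dt e.1 e.2).natAbs = l).card =
          ((F'.filter fun e => e.2 = η ∧ (dt e.1 e.2).natAbs = l).image Prod.fst).card := by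
        rw [Finset.card_image_of_injOn]
        intro e he e' he' hee
        rw [Finset.mem_coe, Finset.mem_filter] at he he'
        exact Prod.ext hee (he.2.1.trans he'.2.1.symm)
      rw [hcard]
      refine (hMU η l _ ((N : ℝ) ^ (ξ + δ)) ((N : ℝ) ^ (ξ - δ)) hLpos hXpos (hB η hηB).1.2.2.2
        (hB η hηB).2 ?_ ?_).trans hM
      · intro ζ hζ
        rw [Finset.mem_image] at hζ
        obtain ⟨e, he, rfl⟩ := hζ
        rw [Finset.mem_filter] at he
        have hbx := (hA e.1 (hEdge e he.1).1).1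
        refine ⟨hbx.1, hbx.2.1, ?_⟩
        rw [← he.2.1]
        exact he.2.2
      · intro ζ hζ ζ' hζ' hz0 hz1
        rw [Finset.mem_image] at hζ hζ'
        obtain ⟨e, he, rfl⟩ := hζ
        obtain ⟨e', he', rfl⟩ := hζ'
        rw [Finset.mem_filter] at he he'
        refine hinj1 e.1 e'.1 η ?_ ?_ hz0 hz1
        · have := hF'F he.1
          rw [← he.2.1]
          exact this
        · have := hF'F he'.1
          rw [← he'.2.1]
          exact this
  have hmul2 : ∀ (ζ : V3) (l : ℕ),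
      ((F'.filter fun e => e.1 = ζ ∧ (dt e.1 e.2).natAbs = l).card : ℝ) ≤ (N : ℝ) ^ (3 * δ) := by
    intro ζ l
    rcases (F'.filter fun e => e.1 = ζ ∧ (dt e.1 e.2).natAbs = l).eq_empty_or_nonempty with h0 | h0
    · rw [h0]
      simpa using hMpos
    · obtain ⟨e0, he0⟩ := h0
      rw [Finset.mem_filter] at he0
      have hζA : ζ ∈ A := by
        rw [← he0.2.1]
        exact (hEdge e0 he0.1).1
      have hcard : (F'.filter fun e => e.1 = ζ ∧ (dt e.1 e.2).natAbs = l).card =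
          ((F'.filter fun e => e.1 = ζ ∧ (dt e.1 e.2).natAbs = l).image Prod.snd).card := by
        rw [Finset.card_image_of_injOn]
        intro e he e' he' hee
        rw [Finset.mem_coe, Finset.mem_filter] at he he'
        exact Prod.ext (he.2.1.trans he'.2.1.symm) hee
      rw [hcard]
      refine (hMU ζ l _ ((N : ℝ) ^ (ξ + δ)) ((N : ℝ) ^ (ξ - δ)) hLpos hXpos (hA ζ hζA).1.2.2.2
        (hA ζ hζA).2 ?_ ?_).trans hM
      · intro η hη
        rw [Finset.mem_image] at hη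
        obtain ⟨e, he, rfl⟩ := hη
        rw [Finset.mem_filter] at he
        have hbx := (hB e.2 (hB'B (hEdge e he.1).2.1)).1
        refine ⟨hbx.1, hbx.2.1, ?_⟩
        rw [CLA_dt, Int.natAbs_neg, ← he.2.1]
        exact he.2.2
      · intro η hη η' hη' hz0 hz1
        rw [Finset.mem_image] at hη hη'
        obtain ⟨e, he, rfl⟩ := hη
        obtain ⟨e', he', rfl⟩ := hη'
        rw [Finset.mem_filter] at he he'
        refine hinj2 ζ e.2 e'.2 ?_ ?_ hz0 hz1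
        · have := hF'F he.1
          rw [← he.2.1]
          exact this
        · have := hF'F he'.1
          rw [← he'.2.1]
          exact this
  obtain ⟨G, hG, hGB⟩ := hVAN N D θ K ξ ((N : ℝ) ^ (3 * δ)) A B' F' hN2' hξ0 hMpos hDN hK1 hK32 hKs
    hKM hEdge hSmA hSmB hmul1 (fun η hη => by rw [hdeg' η hη]; exact (hdeg η hη).1)
  have hT' : ∀ u v : ℤ, {e : V3 × V3 | e ∈ F' ∧ onL u v e.1 ∧ onL u v e.2}.ncard ≤ 4 * r ^ 2 := by
    intro u v
    refine (Set.ncard_le_ncard ?_ ?_).trans (hT u v)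
    · rintro e ⟨h1, h2⟩
      exact ⟨hF'F h1, h2⟩
    · exact (F.finite_toSet).subset (fun e he => he.1)
  have hcomb := hCOMB N D θ (4 * r ^ 2) ξ ((N : ℝ) ^ (3 * δ)) ((N : ℝ) ^ (ε / 2)) ((N : ℝ) ^ ξ) A B'
    F' G hN2' hξ0 hMpos hDN (Real.rpow_pos_of_pos hNpos _).le (Real.rpow_pos_of_pos hNpos _).le hG
    hEdge hSmA hSmB hmul2 hT' (fun η hη => by rw [hdeg' η hη]; exact hdeg η hη) hGB (by
      intro d p hp hph hd2 hdN S hSB hSp
      refine hPB N (by omega) d p hp hph hd2 hdN S ?_ ?_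
      · intro ζ hζ η hη hne
        exact hNPB ζ (hB'B (hSB hζ)) η (hB'B (hSB hη)) hne
      · intro ζ hζ
        exact ⟨CLA_box hN1' hδ1 (hB ζ (hB'B (hSB hζ))).1, hSp ζ hζ⟩)
  have hfin := hN4 N (by omega) r A.card B'.card θ D hr hθ1 hD64 hrN hAc hθr hθb hDle
  linarith

end Pool.Agent.WB
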