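import Pool.Agent.helper79.WB.SpecII

set_option autoImplicit false

namespace Pool.Agent.WB

theorem NUMB_core (a t r D K : ℝ) (L ξ P : ℝ) (hL : 260 ≤ L) (hLξ : 3 / ξ < L) (hξ : 0 < ξ)
    (ht : 1 ≤ t) (hta : t ≤ a) (hsq : a * L ^ 10 ≤ t ^ 2) (hD64 : 64 ≤ D)
    (hDx : 64 * a * L ^ 4 / t ≤ D) (hDx1 : D ≤ 64 * a * L ^ 4 / t + 1)
    (hK1 : 1 ≤ K) (hK : K ≤ 16 * a / D ^ 2 + 1) :
    D ≤ L ^ 5 * a / t ∧ 2 * K * D * L ^ 4 ≤ t ∧ L ^ 3 * ((2 * D + 6) / ξ) < t / (2 * K) := by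
  have hL0 : 0 < L := by linarith
  have ht0 : 0 < t := by linarith
  have ha0 : 0 < a := by linarith
  have hD0 : 0 < D := by linarith
  have hL1 : 1 ≤ L := by linarith
  have hL4 : 1 ≤ L ^ 4 := one_le_pow₀ hL1
  have h1 : 1 ≤ a * L ^ 4 / t := by
    rw [le_div_iff₀ ht0]
    nlinarith
  have hD65 : D ≤ 65 * (a * L ^ 4 / t) := by
    have : 64 * a * L ^ 4 / t = 64 * (a * L ^ 4 / t) := by ring
    linarith
  have hA : D ≤ L ^ 5 * a / t := by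
    have h2 : L ^ 5 * a / t = L * (a * L ^ 4 / t) := by ring
    rw [h2]
    nlinarith
  have hB : 2 * K * D * L ^ 4 ≤ t := by
    have h3 : 2 * (16 * a / D ^ 2) * D * L ^ 4 ≤ t / 2 := by
      have h4 : 2 * (16 * a / D ^ 2) * D * L ^ 4 = 32 * a * L ^ 4 / D := by
        field_simp
        ring
      rw [h4, div_le_iff₀ hD0]
      rw [div_le_iff₀ ht0] at hDx
      linarith
    have h5 : 2 * 1 * D * L ^ 4 ≤ t / 2 := by
      have h6 : 2 * 1 * D * L ^ 4 ≤ 2 * (65 * (a * L ^ 4 / t)) * L ^ 4 := by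
        have : 0 ≤ L ^ 4 := by positivity
        nlinarith
      refine h6.trans ?_
      have h7 : 2 * (65 * (a * L ^ 4 / t)) * L ^ 4 = (130 * a * L ^ 8) / t := by ring
      rw [h7, div_le_iff₀ ht0]
      have h8 : 260 * (a * L ^ 8) ≤ a * L ^ 10 := by
        have h9 : a * L ^ 10 = L ^ 2 * (a * L ^ 8) := by ring
        rw [h9]
        have h10 : 260 ≤ L ^ 2 := by nlinarith
        exact mul_le_mul_of_nonneg_right h10 (by positivity)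
      nlinarith
    calc 2 * K * D * L ^ 4 ≤ 2 * (16 * a / D ^ 2 + 1) * D * L ^ 4 := by gcongr
      _ = 2 * (16 * a / D ^ 2) * D * L ^ 4 + 2 * 1 * D * L ^ 4 := by ring
      _ ≤ t := by linarith
  refine ⟨hA, hB, ?_⟩
  have hK0 : 0 < K := by linarith
  rw [lt_div_iff₀ (by positivity)]
  have h11 : (2 * D + 6) / ξ < D * L := by
    rw [div_lt_iff₀ hξ]
    rw [div_lt_iff₀ hξ] at hLξ
    nlinarith
  have h12 : L ^ 3 * ((2 * D + 6) / ξ) * (2 * K) < L ^ 3 * (D * L) * (2 * K) := by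
    have : 0 < L ^ 3 := by positivity
    have h13 := mul_lt_mul_of_pos_left h11 this
    exact mul_lt_mul_of_pos_right h13 (by positivity)
  have h14 : L ^ 3 * (D * L) * (2 * K) = 2 * K * D * L ^ 4 := by ring
  linarith

theorem NUMB_large (x : ℝ) (δ : ℝ) (hδ : 0 < δ) : ∃ N₀ : ℕ, ∀ N : ℕ, N₀ ≤ N → x ≤ (N : ℝ) ^ δ := by
  have h := (tendsto_rpow_atTop hδ).comp tendsto_natCast_atTop_atTop
  have h2 := h.eventually_ge_atTop x
  rw [Filter.eventually_atTop] at h2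
  obtain ⟨N₀, h3⟩ := h2
  exact ⟨N₀, fun N hN => h3 N hN⟩

theorem NUMB : NUMB_stmt := by
  intro ξ lam ε δ hlam hlx hx1 hε hδ hδε
  have hξ0 : 0 < ξ := hlam.trans hlx
  obtain ⟨N1, hN1⟩ := NUMB_large 260 δ hδ
  obtain ⟨N2, hN2⟩ := NUMB_large (3 / ξ + 1) δ hδ
  refine ⟨N1 + N2 + 2, ?_⟩
  intro N hN r a θ hr hθ hθa hrN haN hrθ
  have hL := hN1 N (by omega)
  have hLξ := hN2 N (by omega)
  have hN2' : 2 ≤ N := by omega
  have hNR : (1 : ℝ) ≤ N := by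
    have : 1 ≤ N := by omega
    exact_mod_cast this
  have hN0 : (0 : ℝ) < N := by linarith
  set L : ℝ := (N : ℝ) ^ δ with hLdef
  have hL0 : 0 < L := by linarith
  have hpw : ∀ k : ℕ, L ^ k = (N : ℝ) ^ ((k : ℝ) * δ) := by
    intro k
    rw [hLdef, ← Real.rpow_natCast, ← Real.rpow_mul hN0.le]
    ring_nf
  have hL3 : (N : ℝ) ^ (3 * δ) = L ^ 3 := by
    rw [hpw 3]; norm_num
  have hL4 : (N : ℝ) ^ (4 * δ) = L ^ 4 := by
    rw [hpw 4]; norm_num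
  have hL5 : (N : ℝ) ^ (5 * δ) = L ^ 5 := by
    rw [hpw 5]; norm_num
  have hL10 : (N : ℝ) ^ (10 * δ) = L ^ 10 := by
    rw [hpw 10]; norm_num
  have hmono : ∀ {x y : ℝ}, x ≤ y → (N : ℝ) ^ x ≤ (N : ℝ) ^ y := fun h =>
    Real.rpow_le_rpow_of_exponent_le hNR h
  have hpos : ∀ x : ℝ, 0 < (N : ℝ) ^ x := fun x => Real.rpow_pos_of_pos hN0 x
  have hadd : ∀ x y : ℝ, (N : ℝ) ^ (x + y) = (N : ℝ) ^ x * (N : ℝ) ^ y := fun x y =>
    Real.rpow_add hN0 x y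
  have htR : (1 : ℝ) ≤ (θ : ℝ) := by exact_mod_cast hθ
  have htaR : (θ : ℝ) ≤ (a : ℝ) := by exact_mod_cast hθa
  have hrR : (1 : ℝ) ≤ (r : ℝ) := by exact_mod_cast hr
  have ht0 : (0 : ℝ) < θ := by linarith
  have ha0 : (0 : ℝ) < a := by linarith
  have hr0 : (0 : ℝ) < r := by linarith
  -- lower bound for θ
  have hθ1 : (N : ℝ) ^ (ξ - lam + ε) * (N : ℝ) ^ (2 * lam - 4 * δ) ≤ θ := by
    refine le_trans ?_ hrθ
    exact mul_le_mul_of_nonneg_right hrN (hpos _).le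
  have hθ2 : (N : ℝ) ^ (ξ + lam + ε - 4 * δ) ≤ θ := by
    rw [← hadd] at hθ1
    have : ξ - lam + ε + (2 * lam - 4 * δ) = ξ + lam + ε - 4 * δ := by ring
    rwa [this] at hθ1
  have hsq : (a : ℝ) * L ^ 10 ≤ (θ : ℝ) ^ 2 := by
    calc (a : ℝ) * L ^ 10 ≤ (N : ℝ) ^ (2 * ξ + 2 * lam + δ) * (N : ℝ) ^ (10 * δ) := by
          rw [hL10]
          exact mul_le_mul_of_nonneg_right haN (by positivity)
      _ = (N : ℝ) ^ (2 * ξ + 2 * lam + δ + 10 * δ) := (hadd _ _).symm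
      _ ≤ (N : ℝ) ^ ((ξ + lam + ε - 4 * δ) + (ξ + lam + ε - 4 * δ)) := hmono (by linarith)
      _ = (N : ℝ) ^ (ξ + lam + ε - 4 * δ) * (N : ℝ) ^ (ξ + lam + ε - 4 * δ) := hadd _ _
      _ ≤ θ * θ := mul_le_mul hθ2 hθ2 (hpos _).le ht0.le
      _ = (θ : ℝ) ^ 2 := by ring
  set x : ℝ := 64 * a * L ^ 4 / θ with hx
  have hx64 : 64 ≤ x := by
    rw [hx, le_div_iff₀ ht0]
    have : 1 ≤ L ^ 4 := one_le_pow₀ (by linarith)
    nlinarith
  obtain ⟨D, hDdef⟩ : ∃ D : ℕ, D = ⌈x⌉₊ := ⟨_, rfl⟩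
  have hDx : x ≤ D := by rw [hDdef]; exact Nat.le_ceil x
  have hDx1 : (D : ℝ) ≤ x + 1 := by
    rw [hDdef]; exact (Nat.ceil_lt_add_one (by linarith)).le
  have hD64R : (64 : ℝ) ≤ D := hx64.trans hDx
  have hD64 : 64 ≤ D := by exact_mod_cast hD64R
  have hD0 : (0 : ℝ) < D := by linarith
  obtain ⟨K, hKdef⟩ : ∃ K : ℕ, K = ⌈16 * (a : ℝ) / (D : ℝ) ^ 2⌉₊ := ⟨_, rfl⟩
  have hy0 : 0 < 16 * (a : ℝ) / (D : ℝ) ^ 2 := by positivity
  have hKy : 16 * (a : ℝ) / (D : ℝ) ^ 2 ≤ K := by rw [hKdef]; exact Nat.le_ceil _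
  have hKy1 : (K : ℝ) ≤ 16 * (a : ℝ) / (D : ℝ) ^ 2 + 1 := by
    rw [hKdef]; exact (Nat.ceil_lt_add_one hy0.le).le
  have hK1 : 1 ≤ K := by
    rw [hKdef]
    exact Nat.one_le_iff_ne_zero.mpr (by
      intro h0
      rw [Nat.ceil_eq_zero] at h0
      linarith)
  have hK1R : (1 : ℝ) ≤ K := by exact_mod_cast hK1
  obtain ⟨hA, hB, hC⟩ := NUMB_core a θ r D K L ξ 0 hL (by linarith) hξ0 htR htaR hsq hD64R hDx hDx1
    hK1R hKy1
  refine ⟨D, K, hD64, ?_, ?_, hK1, ?_, ?_, ?_⟩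
  · -- D ≤ N
    have h1 : (D : ℝ) ≤ N := by
      refine hA.trans ?_
      rw [div_le_iff₀ ht0]
      calc L ^ 5 * a ≤ (N : ℝ) ^ (5 * δ) * (N : ℝ) ^ (2 * ξ + 2 * lam + δ) := by
            rw [hL5]
            exact mul_le_mul_of_nonneg_left haN (by positivity)
        _ = (N : ℝ) ^ (5 * δ + (2 * ξ + 2 * lam + δ)) := (hadd _ _).symm
        _ ≤ (N : ℝ) ^ (1 + (ξ + lam + ε - 4 * δ)) := hmono (by linarith)
        _ = (N : ℝ) * (N : ℝ) ^ (ξ + lam + ε - 4 * δ) := by rw [hadd, Real.rpow_one]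
        _ ≤ N * θ := mul_le_mul_of_nonneg_left hθ2 hN0.le
    exact_mod_cast h1
  · rw [hL5]
    exact hA
  · have h1 : 32 * (K : ℝ) ≤ θ := by
      refine le_trans ?_ hB
      have h4 : 1 ≤ L ^ 4 := one_le_pow₀ (by linarith)
      have h5 : 32 * (K : ℝ) ≤ 2 * K * D := by nlinarith
      have h6 : 2 * (K : ℝ) * D ≤ 2 * K * D * L ^ 4 := by
        have : 0 ≤ 2 * (K : ℝ) * D := by positivity
        nlinarith
      linarith
    exact_mod_cast h1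
  · have h1 : 16 * (a : ℝ) ≤ K * (D : ℝ) ^ 2 := by
      rw [div_le_iff₀ (by positivity)] at hKy
      exact hKy
    have h2 : 16 * a ≤ K * D ^ 2 := by exact_mod_cast h1
    have h3 : D ^ 2 ≤ 2 * s3 D := by
      unfold s3
      have h4 : (D + 1) * (D + 2) = D ^ 2 + 3 * D + 2 := by ring
      rw [h4]
      omega
    have h5 : K * D ^ 2 ≤ K * (2 * s3 D) := Nat.mul_le_mul_left K h3
    have h6 : K * (2 * s3 D) = 2 * (K * s3 D) := by ring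
    omega
  · rw [hL3]
    exact hC

end Pool.Agent.WB
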