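import Pool.Agent.helper96.WB.CORE3
import Pool.Agent.helper20.WB.IPN
import Pool.Agent.helper54.WB.IPG

/-!
# Project wb, rich version: integers in many classes, and the union of the classes of a set `Q`
-/

set_option autoImplicit false

namespace Pool.Agent.WB

open Finset

open scoped Classical in
theorem RICH_cls (p N : ℕ) (_hp : 0 < p) (c : ZMod p) :
    ((Icc 1 N).filter (fun n : ℕ => (n : ZMod p) = c)).card ≤ N / p + 1 := by
  have h : ((Icc 1 N).filter (fun n : ℕ => (n : ZMod p) = c)).card ≤ (range (N / p + 1)).card := by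
    apply card_le_card_of_injOn (fun n => n / p)
    · intro n hn
      rw [mem_coe, mem_filter, mem_Icc] at hn
      rw [mem_coe, mem_range]
      exact Nat.lt_succ_of_le (Nat.div_le_div_right hn.1.2)
    · intro n hn m hm hnm
      rw [mem_coe, mem_filter] at hn hm
      have h1 : (n : ZMod p) = (m : ZMod p) := hn.2.trans hm.2.symm
      have h2 : n % p = m % p := (ZMod.natCast_eq_natCast_iff n m p).1 h1
      have h3 : n / p = m / p := hnm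
      calc n = p * (n / p) + n % p := (Nat.div_add_mod n p).symm
        _ = p * (m / p) + m % p := by rw [h2, h3]
        _ = m := Nat.div_add_mod m p
  rwa [card_range] at h

theorem RICH_thrQ {M : ℝ} {a : (p : ℕ) → ZMod p} {Q : Finset ℕ} (hQ : Q ⊆ prs M) {n p : ℕ} :
    p ∈ thrQ M a Q n ↔ p ∈ Q ∧ (n : ZMod p) = a p := by
  rw [mem_thrQ, mem_thr]
  constructor
  · rintro ⟨⟨_, h1⟩, h2⟩
    exact ⟨h2, h1⟩
  · rintro ⟨h1, h2⟩
    exact ⟨⟨hQ h1, h2⟩, h1⟩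

/-- the level sets, all `r ≥ 1` -/
def CORE1_stmt : Prop :=
  ∀ α ε : ℝ, 1 / 2 < α → α < 1 → 0 < ε → ∃ N₀ : ℕ, ∀ N : ℕ, N₀ ≤ N → ∀ r : ℕ, 1 ≤ r →
    ∀ (a : (p : ℕ) → ZMod p) (Q E : Finset ℕ), Q ⊆ prs ((N : ℝ) ^ α) →
      (∀ n ∈ E, 1 ≤ n ∧ n ≤ N ∧ r ≤ (thrQ ((N : ℝ) ^ α) a Q n).card ∧
        (thrQ ((N : ℝ) ^ α) a Q n).card < 2 * r) →
      (E.card : ℝ) * (r : ℝ) ^ 2 ≤ (N : ℝ) ^ ε * (Q.card * ((N : ℝ) ^ (1 / 2 : ℝ) + r))

theorem CORE1 (h : CORE3_stmt) : CORE1_stmt := by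
  classical
  intro α ε hα1 hα2 hε
  obtain ⟨N₁, hN₁⟩ := h α ε hα1 hα2 hε
  obtain ⟨N₂, hN₂⟩ := big_helper64 2 ε hε
  refine ⟨N₁ + N₂ + 1, ?_⟩
  intro N hN r hr a Q E hQ hE
  rcases Nat.lt_or_ge r 2 with hr2 | hr2
  swap
  · exact hN₁ N (by omega) r hr2 a Q E hQ hE
  have hr1 : r = 1 := by omega
  subst hr1
  have hbig := hN₂ N (by omega)
  have hn1 : (1 : ℝ) ≤ (N : ℝ) := by
    have : 1 ≤ N := by omega
    exact_mod_cast this
  have hn0 : (0 : ℝ) < (N : ℝ) := by linarith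
  obtain ⟨M, hM⟩ : ∃ M : ℝ, M = (N : ℝ) ^ α := ⟨_, rfl⟩
  rw [← hM] at hQ hE
  have hM0 : 0 < M := by rw [hM]; positivity
  have hsub : E ⊆ Q.biUnion (fun p => (Icc 1 N).filter (fun n : ℕ => (n : ZMod p) = a p)) := by
    intro n hn
    obtain ⟨h1, h2, h3, _⟩ := hE n hn
    obtain ⟨p, hp⟩ := card_pos.1 (lt_of_lt_of_le Nat.zero_lt_one h3)
    rw [RICH_thrQ hQ] at hp
    rw [mem_biUnion]
    refine ⟨p, hp.1, ?_⟩
    rw [mem_filter, mem_Icc]
    exact ⟨⟨h1, h2⟩, hp.2⟩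
  have hW : (N : ℝ) / M ≤ (N : ℝ) ^ (1 / 2 : ℝ) := by
    rw [hM]
    nth_rewrite 1 [← Real.rpow_one (N : ℝ)]
    rw [← Real.rpow_sub hn0]
    exact Real.rpow_le_rpow_of_exponent_le hn1 (by linarith)
  have hcls : ∀ p ∈ Q, (((Icc 1 N).filter (fun n : ℕ => (n : ZMod p) = a p)).card : ℝ) ≤
      (N : ℝ) ^ (1 / 2 : ℝ) + 1 := by
    intro p hp
    have hpp := mem_prs.1 (hQ hp)
    have hp0 : (0 : ℝ) < (p : ℝ) := lt_of_lt_of_le hM0 hpp.2.1
    have h1 := RICH_cls p N hpp.1.pos (a p)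
    have h2 : (((Icc 1 N).filter (fun n : ℕ => (n : ZMod p) = a p)).card : ℝ) ≤
        ((N / p : ℕ) : ℝ) + 1 := by exact_mod_cast h1
    have h3 : ((N / p : ℕ) : ℝ) ≤ (N : ℝ) / p := Nat.cast_div_le
    have h4 : (N : ℝ) / p ≤ (N : ℝ) / M := div_le_div_of_nonneg_left hn0.le hM0 hpp.2.1
    linarith
  have h1 : (E.card : ℝ) ≤ Q.card * ((N : ℝ) ^ (1 / 2 : ℝ) + 1) := by
    calc (E.card : ℝ) ≤ ((Q.biUnion
          (fun p => (Icc 1 N).filter (fun n : ℕ => (n : ZMod p) = a p))).card : ℝ) := by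
          exact_mod_cast card_le_card hsub
      _ ≤ ((∑ p ∈ Q, ((Icc 1 N).filter (fun n : ℕ => (n : ZMod p) = a p)).card : ℕ) : ℝ) := by
          exact_mod_cast card_biUnion_le
      _ = ∑ p ∈ Q, (((Icc 1 N).filter (fun n : ℕ => (n : ZMod p) = a p)).card : ℝ) := by
          push_cast
          rfl
      _ ≤ Q.card * ((N : ℝ) ^ (1 / 2 : ℝ) + 1) := by
          have h8 := Finset.sum_le_card_nsmul Q _ _ hcls
          rw [nsmul_eq_mul] at h8
          exact h8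
  have h2 : (0 : ℝ) ≤ Q.card * ((N : ℝ) ^ (1 / 2 : ℝ) + 1) := by positivity
  push_cast
  calc (E.card : ℝ) * 1 ^ 2 = 1 * E.card := by ring
    _ ≤ (N : ℝ) ^ ε * (Q.card * ((N : ℝ) ^ (1 / 2 : ℝ) + 1)) :=
        mul_le_mul (by linarith) h1 (by positivity) (by positivity)

/-- The rich point bound and the size of the union, for every set `Q` of primes. -/
def RICH_stmt : Prop :=
  ∀ α ε : ℝ, 1 / 2 < α → α < 1 → 0 < ε → ∃ N₀ : ℕ, ∀ N : ℕ, N₀ ≤ N →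
    ∀ (a : (p : ℕ) → ZMod p) (Q : Finset ℕ),
      (∀ p ∈ Q, p.Prime ∧ (N : ℝ) ^ α ≤ (p : ℝ) ∧ (p : ℝ) < 2 * (N : ℝ) ^ α) →
      (∀ r : ℕ, 1 ≤ r →
        ({n : ℕ | 1 ≤ n ∧ n ≤ N ∧ r ≤ {p : ℕ | p ∈ Q ∧ (n : ZMod p) = a p}.ncard}.ncard : ℝ) ≤
          (N : ℝ) ^ ε * (Q.card * ((N : ℝ) ^ (1 / 2 : ℝ) / (r : ℝ) ^ 2 + 1 / (r : ℝ)))) ∧
      (Q.card : ℝ) * (N : ℝ) ^ (3 / 2 - 2 * α - ε) ≤
        ({n : ℕ | 1 ≤ n ∧ n ≤ N ∧ ∃ p ∈ Q, (n : ZMod p) = a p}.ncard : ℝ)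

theorem RICH_up (hC : CORE1_stmt) : ∀ α ε : ℝ, 1 / 2 < α → α < 1 → 0 < ε → ∃ N₀ : ℕ,
    ∀ N : ℕ, N₀ ≤ N → ∀ (a : (p : ℕ) → ZMod p) (Q : Finset ℕ), Q ⊆ prs ((N : ℝ) ^ α) →
      ∀ r : ℕ, 1 ≤ r →
        (((Icc 1 N).filter (fun n => r ≤ (thrQ ((N : ℝ) ^ α) a Q n).card)).card : ℝ) ≤
          (N : ℝ) ^ ε * (Q.card * ((N : ℝ) ^ (1 / 2 : ℝ) / (r : ℝ) ^ 2 + 1 / (r : ℝ))) := by
  intro α ε hα1 hα2 hε
  obtain ⟨N₁, hN₁⟩ := hC α (ε / 2) hα1 hα2 (by linarith)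
  obtain ⟨N₂, hN₂⟩ := NUM3_log (ε / 2) (by linarith)
  refine ⟨N₁ + N₂ + 2, ?_⟩
  intro N hN a Q hQ r hr
  have hCN := hN₁ N (by omega)
  have hlog := hN₂ N (by omega) (N ^ 2) (by nlinarith [show 1 ≤ N by omega]) le_rfl
  have hn1 : (1 : ℝ) ≤ (N : ℝ) := by
    have : 1 ≤ N := by omega
    exact_mod_cast this
  have hn2 : (2 : ℝ) ≤ (N : ℝ) := by
    have : 2 ≤ N := by omega
    exact_mod_cast this
  have hn0 : (0 : ℝ) < (N : ℝ) := by linarith
  obtain ⟨M, hM⟩ : ∃ M : ℝ, M = (N : ℝ) ^ α := ⟨_, rfl⟩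
  rw [← hM] at hQ hCN ⊢
  have hMN : M ≤ N := by
    rw [hM]
    calc (N : ℝ) ^ α ≤ (N : ℝ) ^ (1 : ℝ) := Real.rpow_le_rpow_of_exponent_le hn1 hα2.le
      _ = N := Real.rpow_one _
  have hrR : (1 : ℝ) ≤ (r : ℝ) := by exact_mod_cast hr
  -- f n ≤ N ^ 2
  have hf : ∀ n, (thrQ M a Q n).card ≤ N ^ 2 := by
    intro n
    have h1 : thrQ M a Q n ⊆ range (N ^ 2 + 1) := by
      intro p hp
      rw [RICH_thrQ hQ] at hp
      have hpp := mem_prs.1 (hQ hp.1)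
      rw [mem_range]
      have h2 : (p : ℝ) < ((N ^ 2 + 1 : ℕ) : ℝ) := by
        push_cast
        nlinarith [hpp.2.2]
      exact_mod_cast h2
    have h2 : thrQ M a Q n ⊆ (range (N ^ 2 + 1)).erase 0 := by
      intro p hp
      rw [mem_erase]
      refine ⟨?_, h1 hp⟩
      rw [RICH_thrQ hQ] at hp
      exact (mem_prs.1 (hQ hp.1)).1.pos.ne'
    have h3 := card_le_card h2
    rw [card_erase_of_mem (by rw [mem_range]; omega), card_range] at h3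
    simpa using h3
  obtain ⟨B, hB⟩ : ∃ B : ℝ, B = (N : ℝ) ^ (1 / 2 : ℝ) / (r : ℝ) ^ 2 + 1 / (r : ℝ) := ⟨_, rfl⟩
  have hB0 : 0 ≤ B := by rw [hB]; positivity
  rw [← hB]
  have hsub : (Icc 1 N).filter (fun n => r ≤ (thrQ M a Q n).card) ⊆
      (range (Nat.log 2 (N ^ 2) + 1)).biUnion (fun k => (Icc 1 N).filter
        (fun n => 2 ^ k * r ≤ (thrQ M a Q n).card ∧ (thrQ M a Q n).card < 2 * (2 ^ k * r))) := by
    intro n hn
    rw [mem_filter] at hn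
    rw [mem_biUnion]
    refine ⟨Nat.log 2 ((thrQ M a Q n).card / r), ?_, ?_⟩
    · rw [mem_range]
      apply Nat.lt_succ_of_le
      exact Nat.log_mono_right ((Nat.div_le_self _ _).trans (hf n))
    · rw [mem_filter]
      have hd : (thrQ M a Q n).card / r ≠ 0 := by
        rw [Nat.div_ne_zero_iff]
        exact ⟨by omega, hn.2⟩
      refine ⟨hn.1, ?_, ?_⟩
      · have h1 := Nat.pow_log_le_self 2 hd
        exact (Nat.le_div_iff_mul_le (by omega)).1 h1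
      · have h1 := Nat.lt_pow_succ_log_self (b := 2) (by norm_num) ((thrQ M a Q n).card / r)
        have h2 := (Nat.div_lt_iff_lt_mul (by omega : 0 < r)).1 h1
        calc (thrQ M a Q n).card < 2 ^ (Nat.log 2 ((thrQ M a Q n).card / r)).succ * r := h2
          _ = 2 * (2 ^ (Nat.log 2 ((thrQ M a Q n).card / r)) * r) := by
              rw [Nat.succ_eq_add_one, pow_succ]
              ring
  have hk : ∀ k ∈ range (Nat.log 2 (N ^ 2) + 1), (((Icc 1 N).filter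
      (fun n => 2 ^ k * r ≤ (thrQ M a Q n).card ∧
        (thrQ M a Q n).card < 2 * (2 ^ k * r))).card : ℝ) ≤
      (N : ℝ) ^ (ε / 2) * (Q.card * B) := by
    intro k _
    have h1k : 1 ≤ 2 ^ k * r := Nat.mul_pos (by positivity) hr
    have h1 := hCN (2 ^ k * r) h1k a Q ((Icc 1 N).filter
      (fun n => 2 ^ k * r ≤ (thrQ M a Q n).card ∧ (thrQ M a Q n).card < 2 * (2 ^ k * r))) hQ (by
        intro n hn
        rw [mem_filter, mem_Icc] at hn
        exact ⟨hn.1.1, hn.1.2, hn.2.1, hn.2.2⟩)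
    obtain ⟨T, hT⟩ : ∃ T : ℝ, T = ((2 ^ k * r : ℕ) : ℝ) := ⟨_, rfl⟩
    rw [← hT] at h1
    have hTr : (r : ℝ) ≤ T := by
      rw [hT]
      push_cast
      have : (1 : ℝ) ≤ 2 ^ k := one_le_pow₀ (by norm_num)
      nlinarith
    have hT0 : 0 < T := by linarith
    have h2 : ((N : ℝ) ^ (1 / 2 : ℝ) + T) ≤ B * T ^ 2 := by
      have h3 : (N : ℝ) ^ (1 / 2 : ℝ) ≤ (N : ℝ) ^ (1 / 2 : ℝ) / (r : ℝ) ^ 2 * T ^ 2 := by
        rw [div_mul_eq_mul_div, le_div_iff₀ (by positivity)]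
        apply mul_le_mul_of_nonneg_left _ (by positivity)
        exact pow_le_pow_left₀ (by linarith) hTr 2
      have h4 : T ≤ 1 / (r : ℝ) * T ^ 2 := by
        rw [div_mul_eq_mul_div, one_mul, le_div_iff₀ (by linarith)]
        nlinarith
      rw [hB]
      linarith
    have h5 : (((Icc 1 N).filter (fun n => 2 ^ k * r ≤ (thrQ M a Q n).card ∧
        (thrQ M a Q n).card < 2 * (2 ^ k * r))).card : ℝ) * T ^ 2 ≤
        ((N : ℝ) ^ (ε / 2) * (Q.card * B)) * T ^ 2 := by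
      calc _ ≤ (N : ℝ) ^ (ε / 2) * (Q.card * ((N : ℝ) ^ (1 / 2 : ℝ) + T)) := h1
        _ ≤ (N : ℝ) ^ (ε / 2) * (Q.card * (B * T ^ 2)) := by
            apply mul_le_mul_of_nonneg_left _ (by positivity)
            exact mul_le_mul_of_nonneg_left h2 (by positivity)
        _ = _ := by ring
    exact le_of_mul_le_mul_right h5 (by positivity)
  calc (((Icc 1 N).filter (fun n => r ≤ (thrQ M a Q n).card)).card : ℝ)
      ≤ (((range (Nat.log 2 (N ^ 2) + 1)).biUnion (fun k => (Icc 1 N).filter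
        (fun n => 2 ^ k * r ≤ (thrQ M a Q n).card ∧
          (thrQ M a Q n).card < 2 * (2 ^ k * r)))).card : ℝ) := by
        exact_mod_cast card_le_card hsub
    _ ≤ ((∑ k ∈ range (Nat.log 2 (N ^ 2) + 1), ((Icc 1 N).filter
        (fun n => 2 ^ k * r ≤ (thrQ M a Q n).card ∧
          (thrQ M a Q n).card < 2 * (2 ^ k * r))).card : ℕ) : ℝ) := by
        exact_mod_cast card_biUnion_le
    _ = ∑ k ∈ range (Nat.log 2 (N ^ 2) + 1), (((Icc 1 N).filter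
        (fun n => 2 ^ k * r ≤ (thrQ M a Q n).card ∧
          (thrQ M a Q n).card < 2 * (2 ^ k * r))).card : ℝ) := by
        push_cast
        rfl
    _ ≤ ∑ _k ∈ range (Nat.log 2 (N ^ 2) + 1), (N : ℝ) ^ (ε / 2) * (Q.card * B) :=
        sum_le_sum hk
    _ = ((Nat.log 2 (N ^ 2) : ℝ) + 1) * ((N : ℝ) ^ (ε / 2) * (Q.card * B)) := by
        rw [sum_const, card_range, nsmul_eq_mul]
        push_cast
        ring
    _ ≤ (N : ℝ) ^ (ε / 2) * ((N : ℝ) ^ (ε / 2) * (Q.card * B)) := by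
        apply mul_le_mul_of_nonneg_right _ (by positivity)
        exact hlog
    _ = (N : ℝ) ^ ε * (Q.card * B) := by
        rw [← mul_assoc, ← Real.rpow_add hn0]
        congr 2
        ring

theorem RICH_cov (hC : CORE1_stmt) (hIPG : IPG_stmt) : ∀ α ε : ℝ, 1 / 2 < α → α < 1 → 0 < ε →
    ∃ N₀ : ℕ, ∀ N : ℕ, N₀ ≤ N → ∀ (a : (p : ℕ) → ZMod p) (Q : Finset ℕ),
      Q ⊆ prs ((N : ℝ) ^ α) →
      (Q.card : ℝ) * (N : ℝ) ^ (3 / 2 - 2 * α - ε) ≤
        (((Icc 1 N).filter (fun n => 1 ≤ (thrQ ((N : ℝ) ^ α) a Q n).card)).card : ℝ) := by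
  classical
  intro α ε hα1 hα2 hε
  obtain ⟨δ, hδ0, hδ1, hδ2⟩ : ∃ δ : ℝ, 0 < δ ∧ 8 * δ ≤ ε ∧ 8 * δ ≤ 1 - α := by
    refine ⟨min (ε / 8) ((1 - α) / 8), lt_min (by linarith) (by linarith), ?_, ?_⟩
    · have := min_le_left (ε / 8) ((1 - α) / 8)
      linarith
    · have := min_le_right (ε / 8) ((1 - α) / 8)
      linarith
  obtain ⟨N₁, hN₁⟩ := hC α δ hα1 hα2 hδ0
  obtain ⟨N₂, hN₂⟩ := NUM3_log δ hδ0
  obtain ⟨N₃, hN₃⟩ := big_helper64 512 δ hδ0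
  obtain ⟨N₄, hN₄⟩ := big_helper64 4 (1 - α) (by linarith)
  refine ⟨N₁ + N₂ + N₃ + N₄ + 2, ?_⟩
  intro N hN a Q hQ
  have hCN := hN₁ N (by omega)
  have hlog := hN₂ N (by omega) (N ^ 2) (by nlinarith [show 1 ≤ N by omega]) le_rfl
  have hbig := hN₃ N (by omega)
  have hbig4 := hN₄ N (by omega)
  have hn1 : (1 : ℝ) ≤ (N : ℝ) := by
    have : 1 ≤ N := by omega
    exact_mod_cast this
  have hn2 : (2 : ℝ) ≤ (N : ℝ) := by
    have : 2 ≤ N := by omega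
    exact_mod_cast this
  have hn0 : (0 : ℝ) < (N : ℝ) := by linarith
  obtain ⟨M, hM⟩ : ∃ M : ℝ, M = (N : ℝ) ^ α := ⟨_, rfl⟩
  rw [← hM] at hQ hCN ⊢
  have hM0 : 0 < M := by rw [hM]; positivity
  have hWM : (N : ℝ) ^ (1 - α) * M = N := by
    rw [hM, ← Real.rpow_add hn0]
    simp
  have hMN : 4 * M ≤ N := by nlinarith
  obtain ⟨L, hL⟩ : ∃ L : ℝ, L = (N : ℝ) ^ δ := ⟨_, rfl⟩
  rw [← hL] at hbig hlog hCN
  have hL1 : 1 ≤ L := by linarith
  have hL0 : 0 < L := by linarith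
  set U : Finset ℕ := (Icc 1 N).filter (fun n => 1 ≤ (thrQ M a Q n).card) with hUdef
  have hf : ∀ n ∈ U, 1 ≤ (thrQ M a Q n).card ∧ (thrQ M a Q n).card ≤ N ^ 2 := by
    intro n hn
    rw [hUdef, mem_filter] at hn
    refine ⟨hn.2, ?_⟩
    have h1 : thrQ M a Q n ⊆ range N := by
      intro p hp
      rw [RICH_thrQ hQ] at hp
      have hpp := mem_prs.1 (hQ hp.1)
      rw [mem_range]
      have h2 : (p : ℝ) < (N : ℝ) := by linarith [hpp.2.2]
      exact_mod_cast h2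
    have h3 := card_le_card h1
    rw [card_range] at h3
    nlinarith
  obtain ⟨r, hr1, hr2, hr3⟩ := hIPG U (fun n => (thrQ M a Q n).card) (N ^ 2) hf
  have hr0 : (0 : ℝ) < (r : ℝ) := by exact_mod_cast hr1
  have hsum : ∑ n ∈ U, (thrQ M a Q n).card =
      ∑ p ∈ Q, ((Icc 1 N).filter (fun n : ℕ => (n : ZMod p) = a p)).card := by
    have e1 : ∑ n ∈ U, (thrQ M a Q n).card = ∑ n ∈ Icc 1 N, (thrQ M a Q n).card := by
      rw [hUdef]
      refine sum_subset (filter_subset _ _) ?_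
      intro n hn hn2
      rw [mem_filter, not_and] at hn2
      have := hn2 hn
      omega
    have e3 : ∀ n, (thrQ M a Q n).card = (Q.filter (fun p => (n : ZMod p) = a p)).card := by
      intro n
      congr 1
      ext p
      rw [RICH_thrQ hQ, mem_filter]
    rw [e1, sum_congr rfl (fun n _ => e3 n)]
    have e2 := sum_card_bipartiteAbove_eq_sum_card_bipartiteBelow
      (s := Icc 1 N) (t := Q) (fun (n : ℕ) (p : ℕ) => (n : ZMod p) = a p)
    exact e2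
  obtain ⟨W, hW⟩ : ∃ W : ℝ, W = (N : ℝ) ^ (1 - α) := ⟨_, rfl⟩
  rw [← hW] at hWM hbig4
  have hW0 : 0 < W := by linarith
  have hI : (Q.card : ℝ) * (W / 4) ≤ ((∑ n ∈ U, (thrQ M a Q n).card : ℕ) : ℝ) := by
    rw [hsum]
    push_cast
    have h5 : ∀ p ∈ Q, W / 4 ≤
        (((Icc 1 N).filter (fun n : ℕ => (n : ZMod p) = a p)).card : ℝ) := by
      intro p hp
      have hpp := mem_prs.1 (hQ hp)
      have hp0 : 0 < p := hpp.1.pos
      have hp0' : (0 : ℝ) < (p : ℝ) := by exact_mod_cast hp0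
      have h6 := IPN_cnt20 p N hp0 (a p)
      have h7 : ((N / p : ℕ) : ℝ) ≤
          (((Icc 1 N).filter (fun n : ℕ => (n : ZMod p) = a p)).card : ℝ) := by exact_mod_cast h6
      have h8 : (N : ℝ) / p - 1 < ((N / p : ℕ) : ℝ) := by
        have h9 : N < (N / p + 1) * p := by
          have := Nat.lt_div_mul_add (a := N) hp0
          have e : (N / p + 1) * p = N / p * p + p := by ring
          omega
        have h10 : (N : ℝ) < (((N / p : ℕ) : ℝ) + 1) * p := by exact_mod_cast h9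
        have h11 : (N : ℝ) / p < ((N / p : ℕ) : ℝ) + 1 := by
          rw [div_lt_iff₀ hp0']
          exact h10
        linarith
      have h12 : (2 : ℝ) ≤ (N : ℝ) / p := by
        rw [le_div_iff₀ hp0']
        linarith [hpp.2.2]
      have h13 : W / 2 ≤ (N : ℝ) / p := by
        rw [le_div_iff₀ hp0']
        nlinarith [hpp.2.2]
      linarith
    have := card_nsmul_le_sum Q
      (fun p => (((Icc 1 N).filter (fun n : ℕ => (n : ZMod p) = a p)).card : ℝ)) _ h5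
    rw [nsmul_eq_mul] at this
    exact this
  rcases Q.eq_empty_or_nonempty with h0 | hQne
  · rw [h0, card_empty]
    simp
  have hq0 : (0 : ℝ) < (Q.card : ℝ) := by exact_mod_cast card_pos.2 hQne
  set E := U.filter (fun n => r ≤ (thrQ M a Q n).card ∧ (thrQ M a Q n).card < 2 * r) with hE
  have hEb := hCN r hr1 a Q E hQ (by
    intro n hn
    rw [hE, mem_filter, hUdef, mem_filter, mem_Icc] at hn
    exact ⟨hn.1.1.1, hn.1.1.2, hn.2.1, hn.2.2⟩)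
  have h5 : ((∑ n ∈ U, (thrQ M a Q n).card : ℕ) : ℝ) ≤
      4 * ((Nat.log 2 (N ^ 2) : ℝ) + 1) * ((E.card : ℝ) * r) := by exact_mod_cast hr3
  have h6 : (Q.card : ℝ) * (W / 4) ≤ 4 * L * ((E.card : ℝ) * r) := by
    refine hI.trans (h5.trans ?_)
    apply mul_le_mul_of_nonneg_right _ (by positivity)
    linarith
  obtain ⟨H, hH⟩ : ∃ H : ℝ, H = (N : ℝ) ^ (1 / 2 : ℝ) := ⟨_, rfl⟩
  rw [← hH] at hEb
  have hH0 : 0 < H := by rw [hH]; positivity
  -- r is not large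
  have h7 : W * r ≤ 16 * L ^ 2 * (H + r) := by
    have h8 : (Q.card : ℝ) * (W * r) ≤ (Q.card : ℝ) * (16 * L ^ 2 * (H + r)) := by
      calc (Q.card : ℝ) * (W * r) = 4 * ((Q.card : ℝ) * (W / 4)) * r := by ring
        _ ≤ 4 * (4 * L * ((E.card : ℝ) * r)) * r := by
            apply mul_le_mul_of_nonneg_right _ hr0.le
            exact mul_le_mul_of_nonneg_left h6 (by norm_num)
        _ = 16 * L * ((E.card : ℝ) * (r : ℝ) ^ 2) := by ring
        _ ≤ 16 * L * (L * (Q.card * (H + r))) := mul_le_mul_of_nonneg_left hEb (by positivity)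
        _ = (Q.card : ℝ) * (16 * L ^ 2 * (H + r)) := by ring
    exact le_of_mul_le_mul_left h8 hq0
  have h8 : 32 * L ^ 2 ≤ W := by
    calc 32 * L ^ 2 ≤ L * L ^ 2 := by
          apply mul_le_mul_of_nonneg_right _ (by positivity)
          linarith
      _ = (N : ℝ) ^ (δ * 3) := by
          rw [hL, ← pow_succ', ← Real.rpow_natCast, ← Real.rpow_mul hn0.le]
          norm_num
      _ ≤ W := by
          rw [hW]
          exact Real.rpow_le_rpow_of_exponent_le hn1 (by linarith)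
  have h9 : W * r ≤ 32 * L ^ 2 * H := by nlinarith
  -- conclusion
  have h10 : ((∑ n ∈ U, (thrQ M a Q n).card : ℕ) : ℝ) ≤ 4 * r * U.card := by exact_mod_cast hr2
  have h11 : (Q.card : ℝ) * W ≤ 16 * r * U.card := by linarith
  have h12 : (Q.card : ℝ) * W ^ 2 ≤ 512 * L ^ 2 * H * U.card := by
    calc (Q.card : ℝ) * W ^ 2 = W * ((Q.card : ℝ) * W) := by ring
      _ ≤ W * (16 * r * U.card) := mul_le_mul_of_nonneg_left h11 hW0.le
      _ = 16 * (W * r) * U.card := by ring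
      _ ≤ 16 * (32 * L ^ 2 * H) * U.card := by
          apply mul_le_mul_of_nonneg_right _ (Nat.cast_nonneg _)
          linarith
      _ = 512 * L ^ 2 * H * U.card := by ring
  have h13 : W ^ 2 = (N : ℝ) ^ (3 / 2 - 2 * α - ε) * (N : ℝ) ^ ε * H := by
    rw [hW, hH, ← Real.rpow_natCast, ← Real.rpow_mul hn0.le, ← Real.rpow_add hn0,
      ← Real.rpow_add hn0]
    congr 1
    push_cast
    ring
  have h14 : 512 * L ^ 2 ≤ (N : ℝ) ^ ε := by
    calc 512 * L ^ 2 ≤ L * L ^ 2 := by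
          apply mul_le_mul_of_nonneg_right hbig (by positivity)
      _ = (N : ℝ) ^ (δ * 3) := by
          rw [hL, ← pow_succ', ← Real.rpow_natCast, ← Real.rpow_mul hn0.le]
          norm_num
      _ ≤ (N : ℝ) ^ ε := Real.rpow_le_rpow_of_exponent_le hn1 (by linarith)
  have hNe : 0 < (N : ℝ) ^ ε := by positivity
  have h15 : ((Q.card : ℝ) * (N : ℝ) ^ (3 / 2 - 2 * α - ε)) * ((N : ℝ) ^ ε * H) ≤
      (U.card : ℝ) * ((N : ℝ) ^ ε * H) := by
    calc ((Q.card : ℝ) * (N : ℝ) ^ (3 / 2 - 2 * α - ε)) * ((N : ℝ) ^ ε * H)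
        = (Q.card : ℝ) * W ^ 2 := by rw [h13]; ring
      _ ≤ 512 * L ^ 2 * H * U.card := h12
      _ ≤ (N : ℝ) ^ ε * H * U.card := by
          apply mul_le_mul_of_nonneg_right _ (Nat.cast_nonneg _)
          exact mul_le_mul_of_nonneg_right h14 hH0.le
      _ = (U.card : ℝ) * ((N : ℝ) ^ ε * H) := by ring
  exact le_of_mul_le_mul_right h15 (by positivity)

theorem RICH (hC : CORE1_stmt) (hIPG : IPG_stmt) : RICH_stmt := by
  intro α ε hα1 hα2 hε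
  obtain ⟨N₁, hN₁⟩ := RICH_up hC α ε hα1 hα2 hε
  obtain ⟨N₂, hN₂⟩ := RICH_cov hC hIPG α ε hα1 hα2 hε
  refine ⟨N₁ + N₂, fun N hN a Q hQ => ?_⟩
  have hQ' : Q ⊆ prs ((N : ℝ) ^ α) := fun p hp => mem_prs.2 (hQ p hp)
  have hset : ∀ n : ℕ, {p : ℕ | p ∈ Q ∧ (n : ZMod p) = a p}.ncard =
      (thrQ ((N : ℝ) ^ α) a Q n).card := by
    intro n
    have : {p : ℕ | p ∈ Q ∧ (n : ZMod p) = a p} = (thrQ ((N : ℝ) ^ α) a Q n : Set ℕ) := by
      ext p
      rw [Set.mem_ofPred_eq, mem_coe, RICH_thrQ hQ']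
    rw [this, Set.ncard_coe_finset]
  refine ⟨fun r hr => ?_, ?_⟩
  · have h1 : {n : ℕ | 1 ≤ n ∧ n ≤ N ∧ r ≤ {p : ℕ | p ∈ Q ∧ (n : ZMod p) = a p}.ncard} =
        (((Icc 1 N).filter (fun n => r ≤ (thrQ ((N : ℝ) ^ α) a Q n).card)) : Set ℕ) := by
      ext n
      rw [Set.mem_ofPred_eq, mem_coe, mem_filter, mem_Icc, hset, and_assoc]
    rw [h1, Set.ncard_coe_finset]
    exact hN₁ N (by omega) a Q hQ' r hr
  · have h1 : {n : ℕ | 1 ≤ n ∧ n ≤ N ∧ ∃ p ∈ Q, (n : ZMod p) = a p} =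
        (((Icc 1 N).filter (fun n => 1 ≤ (thrQ ((N : ℝ) ^ α) a Q n).card)) : Set ℕ) := by
      ext n
      rw [Set.mem_ofPred_eq, mem_coe, mem_filter, mem_Icc]
      constructor
      · rintro ⟨h2, h3, p, hp, hnp⟩
        refine ⟨⟨h2, h3⟩, ?_⟩
        rw [Nat.one_le_iff_ne_zero, ← Nat.pos_iff_ne_zero, card_pos]
        exact ⟨p, (RICH_thrQ hQ').2 ⟨hp, hnp⟩⟩
      · rintro ⟨⟨h2, h3⟩, h4⟩
        obtain ⟨p, hp⟩ := card_pos.1 (lt_of_lt_of_le Nat.zero_lt_one h4)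
        rw [RICH_thrQ hQ'] at hp
        exact ⟨h2, h3, p, hp.1, hp.2⟩
    rw [h1, Set.ncard_coe_finset]
    exact hN₂ N (by omega) a Q hQ'

end Pool.Agent.WB
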