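import Pool.Agent.helper78.WB.AllIII
import Pool.Agent.helper76.WB.CNT
import Pool.Agent.helper23.WB.COMB
import Pool.Agent.helper67.WB.DIV
import Pool.Agent.helper56.WB.DY
import Pool.Agent.helper97.WB.EXC
import Pool.Agent.helper70.WB.FACT
import Pool.Agent.helper43.WB.HF
import Pool.Agent.helper27.WB.LINE
import Pool.Agent.helper61.WB.MU
import Pool.Agent.helper5.WB.MUN
import Pool.Agent.helper4.WB.SAMP
import Pool.Agent.helper25.WB.SG
import Pool.Agent.helper71.WB.VAN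
import Pool.Agent.helper78.WB.EXE
import Pool.Agent.helper28.WB.IBAL
import Pool.Agent.helper99.WB.ICOP
import Pool.Agent.helper9.WB.IF1
import Pool.Agent.helper18.WB.IF2
import Pool.Agent.helper83.WB.IF3
import Pool.Agent.helper34.WB.ILC
import Pool.Agent.helper40.WB.INP
import Pool.Agent.helper69.WB.IPD
import Pool.Agent.helper15.WB.ITL
import Pool.Agent.helper2.WB.IZU
import Pool.Agent.helper45.WB.ISHR
import Pool.Agent.helper92.WB.ITHU
import Pool.Agent.helper33.WB.ICMP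
import Pool.Agent.helper39.WB.ILA
import Pool.Agent.helper77.WB.IPR
import Pool.Agent.helper78.WB.IMAN
import Pool.Agent.helper96.WB.RICH

/-!
# Project wb, rich version: assembly

`RICH_all : RICH_stmt`, and the bound for all primes of `[N ^ α, 2 N ^ α)`.
-/

set_option autoImplicit false

namespace Pool.Agent.WB

theorem CL3_all : CL3_stmt := by
  have dim3 : DIM3_stmt := DIM3
  have size : SIZE_stmt := SIZE dim3
  have sg : SG_stmt := SG dim3
  have van : VAN_stmt := VAN SAMP sg DIV CNT size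
  have fact : FACT_stmt := FACT HF
  have exe : EXE_stmt := EXE DIV (EXC dim3) CNT
  have comb : COMB_stmt := COMB fact exe LINE
  exact CL3 DY MU MUN van comb PBN

/-- The rich point theorem. -/
theorem RICH_all : RICH_stmt := by
  have ibal : IBAL_stmt := IBAL ITHU ICMP
  have ishr : ISHR_stmt := ISHR IPD
  have iman : IMAN_stmt := IMAN ibal ishr IZU
  have ilc : ILC_stmt := ILC ILA ICOP IZU
  have iln : ILN3_stmt := ILN3 CL3_all ilc INP IF1 IF2 IF3
  have isc : ISC3_stmt := ISC3 iln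
  have ina : INA3_stmt := INA3 IPR
  exact RICH (CORE1 (CORE3 ITL iman IPR isc ina ICOP)) IPG

/-- All primes of `[N ^ α, 2 N ^ α)`. -/
theorem RICH_WBA (h : RICH_stmt) : WBA_stmt := by
  intro α hα hα1 ε hε
  obtain ⟨N₁, hN₁⟩ := h α (ε / 2) hα hα1 (by linarith)
  obtain ⟨N₂, hN₂⟩ := IPR.1 α (by linarith) (ε / 2) (by linarith)
  refine ⟨N₁ + N₂ + 1, fun N hN a => ?_⟩
  have hn0 : (0 : ℝ) < (N : ℝ) := by
    have : 0 < N := by omega
    exact_mod_cast this
  have h1 := (hN₁ N (by omega) a (prs ((N : ℝ) ^ α)) (fun p hp => mem_prs.1 hp)).2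
  have h2 := hN₂ N (by omega)
  have h3 : {n : ℕ | 1 ≤ n ∧ n ≤ N ∧ ∃ p ∈ prs ((N : ℝ) ^ α), (n : ZMod p) = a p} =
      {n : ℕ | 1 ≤ n ∧ n ≤ N ∧ ∃ p : ℕ, p.Prime ∧ (N : ℝ) ^ α ≤ p ∧ (p : ℝ) < 2 * (N : ℝ) ^ α ∧
        (n : ZMod p) = a p} := by
    ext n
    simp only [Set.mem_ofPred_eq]
    constructor
    · rintro ⟨h4, h5, p, hp, h6⟩
      have hpp := mem_prs.1 hp
      exact ⟨h4, h5, p, hpp.1, hpp.2.1, hpp.2.2, h6⟩
    · rintro ⟨h4, h5, p, hp1, hp2, hp3, h6⟩
      exact ⟨h4, h5, p, mem_prs.2 ⟨hp1, hp2, hp3⟩, h6⟩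
  rw [h3] at h1
  refine le_trans ?_ h1
  calc (N : ℝ) ^ (3 / 2 - α - ε) = (N : ℝ) ^ (α - ε / 2) * (N : ℝ) ^ (3 / 2 - 2 * α - ε / 2) := by
        rw [← Real.rpow_add hn0]
        congr 1
        ring
    _ ≤ ((prs ((N : ℝ) ^ α)).card : ℝ) * (N : ℝ) ^ (3 / 2 - 2 * α - ε / 2) :=
        mul_le_mul_of_nonneg_right h2 (by positivity)

end Pool.Agent.WB
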