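import Pool.Agent.helper96.WB.NUM3
import Pool.Agent.helper96.WB.CLA

/-!
# Project wb, rich version: the chart lemma in quantitative form

`CL3_stmt`: at most `N^ε n (√n + r + N^ξ)` edges, for sets of at most `n ≤ N ^ 2` vectors and at most
`4 r ^ 2` edges through a lattice point.
-/

set_option autoImplicit false

namespace Pool.Agent.WB

open MvPolynomial

/-- The chart lemma, quantitative form. -/
def CL3_stmt : Prop :=
  ∀ ξ ε : ℝ, 0 < ξ → ξ < 1 → 0 < ε → ∃ δ : ℝ, 0 < δ ∧ ∃ N₀ : ℕ,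
    ∀ N : ℕ, N₀ ≤ N → ∀ r n : ℕ, n ≤ N ^ 2 →
    ∀ (A B : Finset V3) (F : Finset (V3 × V3)),
      (∀ e ∈ F, e.1 ∈ A ∧ e.2 ∈ B) →
      (∀ ζ ∈ A, Box N ξ δ ζ ∧ (N : ℝ) ^ (ξ - δ) ≤ max |((ζ 0 : ℤ) : ℝ)| |((ζ 1 : ℤ) : ℝ)|) →
      (∀ ζ ∈ B, Box N ξ δ ζ ∧ (N : ℝ) ^ (ξ - δ) ≤ max |((ζ 0 : ℤ) : ℝ)| |((ζ 1 : ℤ) : ℝ)|) →
      A.card ≤ n → B.card ≤ n → NP A → NP B →
      (∀ e ∈ F, (dt e.1 e.2).natAbs.Prime ∧ (N : ℝ) ^ ξ ≤ ((dt e.1 e.2).natAbs : ℝ) ∧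
        ∃ u v : ℤ, onL u v e.1 ∧ onL u v e.2) →
      (∀ ζ ζ' η : V3, (ζ, η) ∈ F → (ζ', η) ∈ F → ζ 0 = ζ' 0 → ζ 1 = ζ' 1 → ζ = ζ') →
      (∀ ζ η η' : V3, (ζ, η) ∈ F → (ζ, η') ∈ F → η 0 = η' 0 → η 1 = η' 1 → η = η') →
      (∀ u v : ℤ, {e : V3 × V3 | e ∈ F ∧ onL u v e.1 ∧ onL u v e.2}.ncard ≤ 4 * r ^ 2) →
      (F.card : ℝ) ≤ (N : ℝ) ^ ε * ((n : ℝ) * (Real.sqrt n + r + (N : ℝ) ^ ξ))

theorem NUM3_B (N a θ : ℕ) (L ξ : ℝ) (hL : 260 ≤ L) (hLξ : 3 / ξ < L) (hξ0 : 0 < ξ) (hθ : 1 ≤ θ)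
    (hθa : θ ≤ a) (hsq : (a : ℝ) * L ^ 10 ≤ (θ : ℝ) ^ 2) (hDN : L ^ 5 * a / θ ≤ N) :
    ∃ D K : ℕ, 64 ≤ D ∧ D ≤ N ∧ (D : ℝ) ≤ L ^ 5 * a / θ ∧ 1 ≤ K ∧ 32 * K ≤ θ ∧
      8 * a ≤ K * s3 D ∧ L ^ 3 * ((2 * (D : ℝ) + 6) / ξ) < (θ : ℝ) / (2 * (K : ℝ)) := by
  have htR : (1 : ℝ) ≤ (θ : ℝ) := by exact_mod_cast hθ
  have htaR : (θ : ℝ) ≤ (a : ℝ) := by exact_mod_cast hθa
  have ht0 : (0 : ℝ) < θ := by linarith
  have ha0 : (0 : ℝ) < a := by linarith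
  have hL0 : 0 < L := by linarith
  set x : ℝ := 64 * a * L ^ 4 / θ with hx
  have hx64 : 64 ≤ x := by
    rw [hx, le_div_iff₀ ht0]
    have : 1 ≤ L ^ 4 := one_le_pow₀ (by linarith)
    nlinarith
  obtain ⟨D, hDdef⟩ : ∃ D : ℕ, D = ⌈x⌉₊ := ⟨_, rfl⟩
  have hDx : x ≤ D := by rw [hDdef]; exact Nat.le_ceil x
  have hDx1 : (D : ℝ) ≤ x + 1 := by
    rw [hDdef]; exact (Nat.ceil_lt_add_one (by linarith)).le
  have hD64R : (64 : ℝ) ≤ D := hx64.trans hDx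
  have hD64 : 64 ≤ D := by exact_mod_cast hD64R
  have hD0 : (0 : ℝ) < D := by linarith
  obtain ⟨K, hKdef⟩ : ∃ K : ℕ, K = ⌈16 * (a : ℝ) / (D : ℝ) ^ 2⌉₊ := ⟨_, rfl⟩
  have hy0 : 0 < 16 * (a : ℝ) / (D : ℝ) ^ 2 := by positivity
  have hKy : 16 * (a : ℝ) / (D : ℝ) ^ 2 ≤ K := by rw [hKdef]; exact Nat.le_ceil _
  have hKy1 : (K : ℝ) ≤ 16 * (a : ℝ) / (D : ℝ) ^ 2 + 1 := by
    rw [hKdef]; exact (Nat.ceil_lt_add_one hy0.le).le
  have hK1 : 1 ≤ K := by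
    rw [hKdef]
    exact Nat.one_le_iff_ne_zero.mpr (by
      intro h0
      rw [Nat.ceil_eq_zero] at h0
      linarith)
  have hK1R : (1 : ℝ) ≤ K := by exact_mod_cast hK1
  obtain ⟨hA, hB, hC⟩ := NUMB_core a θ 0 D K L ξ 0 hL (by linarith) hξ0 htR htaR hsq hD64R hDx hDx1
    hK1R hKy1
  refine ⟨D, K, hD64, ?_, hA, hK1, ?_, ?_, hC⟩
  · have h1 : (D : ℝ) ≤ N := hA.trans hDN
    exact_mod_cast h1
  · have h1 : 32 * (K : ℝ) ≤ θ := by
      refine le_trans ?_ hB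
      have h4 : 1 ≤ L ^ 4 := one_le_pow₀ (by linarith)
      have h5 : 32 * (K : ℝ) ≤ 2 * K * D := by nlinarith
      have h6 : 2 * (K : ℝ) * D ≤ 2 * K * D * L ^ 4 := by
        have : 0 ≤ 2 * (K : ℝ) * D := by positivity
        nlinarith
      linarith
    exact_mod_cast h1
  · have h1 : 16 * (a : ℝ) ≤ K * (D : ℝ) ^ 2 := by
      rw [div_le_iff₀ (by positivity)] at hKy
      exact hKy
    have h2 : 16 * a ≤ K * D ^ 2 := by exact_mod_cast h1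
    have h3 : D ^ 2 ≤ 2 * s3 D := by
      unfold s3
      have h4 : (D + 1) * (D + 2) = D ^ 2 + 3 * D + 2 := by ring
      rw [h4]
      omega
    have h5 : K * D ^ 2 ≤ K * (2 * s3 D) := Nat.mul_le_mul_left K h3
    have h6 : K * (2 * s3 D) = 2 * (K * s3 D) := by ring
    omega

theorem CL3 (hDY : DY_stmt) (hMU : MU_stmt) (hMUN : MUN_stmt) (hVAN : VAN_stmt)
    (hCOMB : COMB_stmt) (hPB : PBN_stmt) : CL3_stmt := by
  intro ξ ε hξ0 hξ1 hε
  obtain ⟨δB, hδB, NB, hPB⟩ := hPB ξ hξ0 hξ1 (ε / 2) (by linarith)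
  obtain ⟨δ, hδ0, hδ1, hδ2, hδ4⟩ : ∃ δ : ℝ, 0 < δ ∧ δ ≤ δB ∧ 20 * δ ≤ ε ∧ ξ + δ ≤ 1 := by
    refine ⟨min δB (min (ε / 20) (1 - ξ)), ?_, ?_, ?_, ?_⟩
    · have h1 : 0 < ε / 20 := by linarith
      have h3 : 0 < 1 - ξ := by linarith
      exact lt_min hδB (lt_min h1 h3)
    · exact min_le_left _ _
    · have := (min_le_right δB (min (ε / 20) (1 - ξ))).trans (min_le_left _ _)
      linarith
    · have := (min_le_right δB (min (ε / 20) (1 - ξ))).trans (min_le_right _ _)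
      linarith
  obtain ⟨N1, hN1⟩ := hMUN ξ δ hδ0
  obtain ⟨N2, hN2⟩ := NUM3_log δ hδ0
  obtain ⟨N3, hN3⟩ := NUMB_large 260 δ hδ0
  obtain ⟨N4, hN4⟩ := NUMB_large (3 / ξ + 1) δ hδ0
  refine ⟨δ, hδ0, NB + N1 + N2 + N3 + N4 + 2, ?_⟩
  intro N hN r n hnN A B F hF hA hB hAc hBc hNPA hNPB hE hinj1 hinj2 hT
  by_contra hcon
  push Not at hcon
  have hN2' : 2 ≤ N := by omega
  have hN1' : 1 ≤ N := by omega
  have hNpos : (0 : ℝ) < N := by
    have : 0 < N := by omega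
    exact_mod_cast this
  have hNR : (1 : ℝ) ≤ N := by exact_mod_cast hN1'
  have hL := hN3 N (by omega)
  have hLξ := hN4 N (by omega)
  set L : ℝ := (N : ℝ) ^ δ with hLdef
  have hL0 : 0 < L := by linarith
  have hpw : ∀ k : ℕ, L ^ k = (N : ℝ) ^ ((k : ℝ) * δ) := by
    intro k
    rw [hLdef, ← Real.rpow_natCast, ← Real.rpow_mul hNpos.le]
    ring_nf
  have hL3 : (N : ℝ) ^ (3 * δ) = L ^ 3 := by
    rw [hpw 3]; norm_num
  obtain ⟨E, hEdef⟩ : ∃ E, E = (N : ℝ) ^ (ε / 2) := ⟨_, rfl⟩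
  have hE0 : 0 < E := by rw [hEdef]; positivity
  have hE2 : (N : ℝ) ^ ε = E ^ 2 := by
    rw [hEdef, ← Real.rpow_natCast, ← Real.rpow_mul hNpos.le]
    congr 1
    push_cast
    ring
  have hEL : L ^ 10 ≤ E := by
    rw [hpw 10, hEdef]
    apply Real.rpow_le_rpow_of_exponent_le hNR
    push_cast
    linarith
  have hFpos : 0 < F.card := by
    have h1 : (0 : ℝ) ≤ (N : ℝ) ^ ε * ((n : ℝ) * (Real.sqrt n + r + (N : ℝ) ^ ξ)) := by positivity
    have h2 := lt_of_le_of_lt h1 hcon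
    exact_mod_cast h2
  have hFne : F.Nonempty := Finset.card_pos.mp hFpos
  obtain ⟨θ, B', hθ1, hθA, hB'B, hdeg, he2, hFe⟩ := hDY A B F hFne hF
  set F' := F.filter (fun e => e.2 ∈ B') with hF'def
  have hF'F : F' ⊆ F := Finset.filter_subset _ _
  have hB'c : B'.card ≤ n := (Finset.card_le_card hB'B).trans hBc
  have hA1 : 1 ≤ A.card := hθ1.trans hθA
  have hn1 : 1 ≤ n := hA1.trans hAc
  have hnR : (1 : ℝ) ≤ n := by exact_mod_cast hn1
  have hn0 : (0 : ℝ) < n := by linarith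
  have haR : (1 : ℝ) ≤ A.card := by exact_mod_cast hA1
  have hanR : (A.card : ℝ) ≤ n := by exact_mod_cast hAc
  have htR : (1 : ℝ) ≤ θ := by exact_mod_cast hθ1
  have ht0 : (0 : ℝ) < θ := by linarith
  obtain ⟨s, hs⟩ : ∃ s, s = Real.sqrt n := ⟨_, rfl⟩
  have hsn : s ^ 2 = n := by rw [hs]; exact Real.sq_sqrt hn0.le
  have hs0 : 0 < s := by rw [hs]; exact Real.sqrt_pos.mpr hn0
  have hsN : s ≤ N := by
    have h1 : (n : ℝ) ≤ (N : ℝ) ^ 2 := by exact_mod_cast hnN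
    rw [← hsn] at h1
    exact (sq_le_sq₀ hs0.le hNpos.le).mp h1
  obtain ⟨X, hX⟩ : ∃ X, X = (N : ℝ) ^ ξ := ⟨_, rfl⟩
  have hX0 : 0 < X := by rw [hX]; positivity
  obtain ⟨R, hR⟩ : ∃ R, R = s + r + X := ⟨_, rfl⟩
  have hr0 : (0 : ℝ) ≤ r := Nat.cast_nonneg r
  have hR0 : 0 < R := by rw [hR]; linarith
  rw [hE2, ← hs, ← hX, ← hR] at hcon
  have hP0 : 0 < E ^ 2 / L ^ 2 := by positivity
  -- θ b is large
  have htb : E ^ 2 / L ^ 2 * ((n : ℝ) * R) ≤ θ * B'.card := by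
    have h1 : (F.card : ℝ) ≤ ((Nat.log 2 A.card : ℝ) + 1) * F'.card := by exact_mod_cast hFe
    have h2 := hN2 N (by omega) A.card hA1 (hAc.trans hnN)
    have h3 : (F'.card : ℝ) ≤ 2 * θ * B'.card := by exact_mod_cast he2
    have h4 : E ^ 2 * (n * R) ≤ L * (2 * θ * B'.card) := by
      calc E ^ 2 * (n * R) ≤ (F.card : ℝ) := hcon.le
        _ ≤ ((Nat.log 2 A.card : ℝ) + 1) * F'.card := h1
        _ ≤ L * F'.card := mul_le_mul_of_nonneg_right h2 (Nat.cast_nonneg _)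
        _ ≤ L * (2 * θ * B'.card) := mul_le_mul_of_nonneg_left h3 hL0.le
    rw [div_mul_eq_mul_div, div_le_iff₀ (by positivity)]
    refine h4.trans ?_
    have h5 : (0 : ℝ) ≤ θ * B'.card := by positivity
    have h6 : L * (2 * θ * B'.card) = (2 * L) * (θ * B'.card) := by ring
    have h7 : θ * (B'.card : ℝ) * L ^ 2 = (L ^ 2) * (θ * B'.card) := by ring
    rw [h6, h7]
    apply mul_le_mul_of_nonneg_right _ h5
    nlinarith
  have ht : E ^ 2 / L ^ 2 * R ≤ θ := by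
    have h1 : (θ : ℝ) * B'.card ≤ θ * n := by
      apply mul_le_mul_of_nonneg_left _ ht0.le
      exact_mod_cast hB'c
    have h2 : (E ^ 2 / L ^ 2 * R) * n ≤ θ * n := by
      calc (E ^ 2 / L ^ 2 * R) * n = E ^ 2 / L ^ 2 * ((n : ℝ) * R) := by ring
        _ ≤ _ := htb.trans h1
    exact le_of_mul_le_mul_right h2 hn0
  have hLP : L ^ 18 ≤ E ^ 2 / L ^ 2 := by
    rw [le_div_iff₀ (by positivity)]
    calc L ^ 18 * L ^ 2 = L ^ 10 * L ^ 10 := by ring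
      _ ≤ E * E := mul_le_mul hEL hEL (by positivity) hE0.le
      _ = E ^ 2 := by ring
  have hts : L ^ 18 * s ≤ θ := by
    refine le_trans ?_ ht
    apply mul_le_mul hLP _ hs0.le hP0.le
    rw [hR]
    linarith
  have hL1 : 1 ≤ L := by linarith
  have hsq : (A.card : ℝ) * L ^ 10 ≤ (θ : ℝ) ^ 2 := by
    calc (A.card : ℝ) * L ^ 10 ≤ n * L ^ 36 := by
          apply mul_le_mul hanR _ (by positivity) hn0.le
          exact pow_le_pow_right₀ hL1 (by norm_num)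
      _ = (L ^ 18 * s) ^ 2 := by rw [← hsn]; ring
      _ ≤ (θ : ℝ) ^ 2 := pow_le_pow_left₀ (by positivity) hts 2
  have hDN : L ^ 5 * A.card / θ ≤ N := by
    rw [div_le_iff₀ ht0]
    calc L ^ 5 * (A.card : ℝ) ≤ L ^ 18 * n := by
          apply mul_le_mul _ hanR (by positivity) (by positivity)
          exact pow_le_pow_right₀ hL1 (by norm_num)
      _ = s * (L ^ 18 * s) := by rw [← hsn]; ring
      _ ≤ N * θ := mul_le_mul hsN hts (by positivity) hNpos.le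
  obtain ⟨D, K, hD64, hDN', hDle, hK1, hK32, hKs, hKM⟩ := NUM3_B N A.card θ L ξ hL (by linarith) hξ0
    hθ1 hθA hsq hDN
  rw [← hL3] at hKM
  have hM := hN1 N (by omega)
  have hdeg' : ∀ η ∈ B', (F'.filter fun e => e.2 = η) = F.filter (fun e => e.2 = η) := by
    intro η hη
    ext e
    simp only [hF'def, Finset.mem_filter]
    constructor
    · rintro ⟨⟨h1, h2⟩, h3⟩
      exact ⟨h1, h3⟩
    · rintro ⟨h1, h3⟩
      exact ⟨⟨h1, by rw [h3]; exact hη⟩, h3⟩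
  have hEdge : ∀ e ∈ F', e.1 ∈ A ∧ e.2 ∈ B' ∧ Edge N ξ e := by
    intro e he
    have he' := he
    rw [hF'def, Finset.mem_filter] at he'
    exact ⟨(hF e he'.1).1, he'.2, hE e he'.1⟩
  have hSmA : ∀ ζ ∈ A, Sm N ζ := fun ζ hζ => CLA_sm hN1' hδ4 (hA ζ hζ).1
  have hSmB : ∀ ζ ∈ B', Sm N ζ := fun ζ hζ => CLA_sm hN1' hδ4 (hB ζ (hB'B hζ)).1
  have hLpos : (0 : ℝ) < (N : ℝ) ^ (ξ - δ) := Real.rpow_pos_of_pos hNpos _
  have hXpos : (0 : ℝ) ≤ (N : ℝ) ^ (ξ + δ) := (Real.rpow_pos_of_pos hNpos _).le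
  have hMpos : (0 : ℝ) ≤ (N : ℝ) ^ (3 * δ) := (Real.rpow_pos_of_pos hNpos _).le
  -- multiplicities
  have hmul1 : ∀ (η : V3) (l : ℕ),
      ((F'.filter fun e => e.2 = η ∧ (dt e.1 e.2).natAbs = l).card : ℝ) ≤ (N : ℝ) ^ (3 * δ) := by
    intro η l
    rcases (F'.filter fun e => e.2 = η ∧ (dt e.1 e.2).natAbs = l).eq_empty_or_nonempty with h0 | h0
    · rw [h0]
      simpa using hMpos
    · obtain ⟨e0, he0⟩ := h0
      rw [Finset.mem_filter] at he0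
      have hηB : η ∈ B := by
        rw [← he0.2.1]
        exact hB'B (hEdge e0 he0.1).2.1
      have hcard : (F'.filter fun e => e.2 = η ∧ (dt e.1 e.2).natAbs = l).card =
          ((F'.filter fun e => e.2 = η ∧ (dt e.1 e.2).natAbs = l).image Prod.fst).card := by
        rw [Finset.card_image_of_injOn]
        intro e he e' he' hee
        rw [Finset.mem_coe, Finset.mem_filter] at he he'
        exact Prod.ext hee (he.2.1.trans he'.2.1.symm)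
      rw [hcard]
      refine (hMU η l _ ((N : ℝ) ^ (ξ + δ)) ((N : ℝ) ^ (ξ - δ)) hLpos hXpos (hB η hηB).1.2.2.2
        (hB η hηB).2 ?_ ?_).trans hM
      · intro ζ hζ
        rw [Finset.mem_image] at hζ
        obtain ⟨e, he, rfl⟩ := hζ
        rw [Finset.mem_filter] at he
        have hbx := (hA e.1 (hEdge e he.1).1).1
        refine ⟨hbx.1, hbx.2.1, ?_⟩
        rw [← he.2.1]
        exact he.2.2
      · intro ζ hζ ζ' hζ' hz0 hz1
        rw [Finset.mem_image] at hζ hζ'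
        obtain ⟨e, he, rfl⟩ := hζ
        obtain ⟨e', he', rfl⟩ := hζ'
        rw [Finset.mem_filter] at he he'
        refine hinj1 e.1 e'.1 η ?_ ?_ hz0 hz1
        · have := hF'F he.1
          rw [← he.2.1]
          exact this
        · have := hF'F he'.1
          rw [← he'.2.1]
          exact this
  have hmul2 : ∀ (ζ : V3) (l : ℕ),
      ((F'.filter fun e => e.1 = ζ ∧ (dt e.1 e.2).natAbs = l).card : ℝ) ≤ (N : ℝ) ^ (3 * δ) := by
    intro ζ l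
    rcases (F'.filter fun e => e.1 = ζ ∧ (dt e.1 e.2).natAbs = l).eq_empty_or_nonempty with h0 | h0
    · rw [h0]
      simpa using hMpos
    · obtain ⟨e0, he0⟩ := h0
      rw [Finset.mem_filter] at he0
      have hζA : ζ ∈ A := by
        rw [← he0.2.1]
        exact (hEdge e0 he0.1).1
      have hcard : (F'.filter fun e => e.1 = ζ ∧ (dt e.1 e.2).natAbs = l).card =
          ((F'.filter fun e => e.1 = ζ ∧ (dt e.1 e.2).natAbs = l).image Prod.snd).card := by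
        rw [Finset.card_image_of_injOn]
        intro e he e' he' hee
        rw [Finset.mem_coe, Finset.mem_filter] at he he'
        exact Prod.ext (he.2.1.trans he'.2.1.symm) hee
      rw [hcard]
      refine (hMU ζ l _ ((N : ℝ) ^ (ξ + δ)) ((N : ℝ) ^ (ξ - δ)) hLpos hXpos (hA ζ hζA).1.2.2.2
        (hA ζ hζA).2 ?_ ?_).trans hM
      · intro η hη
        rw [Finset.mem_image] at hη
        obtain ⟨e, he, rfl⟩ := hη
        rw [Finset.mem_filter] at he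
        have hbx := (hB e.2 (hB'B (hEdge e he.1).2.1)).1
        refine ⟨hbx.1, hbx.2.1, ?_⟩
        rw [CLA_dt, Int.natAbs_neg, ← he.2.1]
        exact he.2.2
      · intro η hη η' hη' hz0 hz1
        rw [Finset.mem_image] at hη hη'
        obtain ⟨e, he, rfl⟩ := hη
        obtain ⟨e', he', rfl⟩ := hη'
        rw [Finset.mem_filter] at he he'
        refine hinj2 ζ e.2 e'.2 ?_ ?_ hz0 hz1
        · have := hF'F he.1
          rw [← he.2.1]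
          exact this
        · have := hF'F he'.1
          rw [← he'.2.1]
          exact this
  obtain ⟨G, hG, hGB⟩ := hVAN N D θ K ξ ((N : ℝ) ^ (3 * δ)) A B' F' hN2' hξ0 hMpos hDN' hK1 hK32 hKs
    hKM hEdge hSmA hSmB hmul1 (fun η hη => by rw [hdeg' η hη]; exact (hdeg η hη).1)
  have hT' : ∀ u v : ℤ, {e : V3 × V3 | e ∈ F' ∧ onL u v e.1 ∧ onL u v e.2}.ncard ≤ 4 * r ^ 2 := by
    intro u v
    refine (Set.ncard_le_ncard ?_ ?_).trans (hT u v)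
    · rintro e ⟨h1, h2⟩
      exact ⟨hF'F h1, h2⟩
    · exact (F.finite_toSet).subset (fun e he => he.1)
  have hcomb := hCOMB N D θ (4 * r ^ 2) ξ ((N : ℝ) ^ (3 * δ)) E X A B'
    F' G hN2' hξ0 hMpos hDN' hE0.le hX0.le hG
    hEdge hSmA hSmB hmul2 hT' (fun η hη => by rw [hdeg' η hη]; exact hdeg η hη) hGB (by
      intro d p hp hph hd2 hdN S hSB hSp
      rw [hEdef, hX]
      refine hPB N (by omega) d p hp hph hd2 hdN S ?_ ?_
      · intro ζ hζ η hη hne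
        exact hNPB ζ (hB'B (hSB hζ)) η (hB'B (hSB hη)) hne
      · intro ζ hζ
        exact ⟨CLA_box hN1' hδ1 (hB ζ (hB'B (hSB hζ))).1, hSp ζ hζ⟩)
  have hD64R : (64 : ℝ) ≤ D := by exact_mod_cast hD64
  have hfin := NUM3_C A.card B'.card n θ D r X R E L ξ s hξ0 hL (by linarith) hEL hn0 (by linarith)
    hanR hr0 hX0.le hs0 hsn hR ht0 ht htb hDle hD64R
  rw [hL3] at hcomb
  push_cast at hcomb
  linarith

end Pool.Agent.WB
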