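import Pool.Agent.helper96.WB.NCH

/-!
# Project wb, rich version: dyadic level sets

`CORE3_stmt`: a set `E` of integers `n ≤ N` with `r ≤ f n < 2 r`, `f n` the number of the primes of
`Q` whose class contains `n`, has `|E| r ^ 2 ≤ N ^ ε |Q| (√N + r)`.
-/

set_option autoImplicit false

namespace Pool.Agent.WB

open Finset

def CORE3_stmt : Prop :=
  ∀ α ε : ℝ, 1 / 2 < α → α < 1 → 0 < ε → ∃ N₀ : ℕ, ∀ N : ℕ, N₀ ≤ N → ∀ r : ℕ, 2 ≤ r →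
    ∀ (a : (p : ℕ) → ZMod p) (Q E : Finset ℕ), Q ⊆ prs ((N : ℝ) ^ α) →
      (∀ n ∈ E, 1 ≤ n ∧ n ≤ N ∧ r ≤ (thrQ ((N : ℝ) ^ α) a Q n).card ∧
        (thrQ ((N : ℝ) ^ α) a Q n).card < 2 * r) →
      (E.card : ℝ) * (r : ℝ) ^ 2 ≤ (N : ℝ) ^ ε * (Q.card * ((N : ℝ) ^ (1 / 2 : ℝ) + r))

theorem CORE3 (hITL : ITL_stmt) (hIMAN : IMAN_stmt) (hIPR : IPR_stmt) (hISC : ISC3_stmt)
    (hINA : INA3_stmt) (hICOP : ICOP_stmt) : CORE3_stmt := by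
  classical
  intro α ε hα1 hα2 hε
  obtain ⟨η, hη0, hη1, hη2⟩ : ∃ η : ℝ, 0 < η ∧ 4 * η ≤ ε ∧ 2 * η ≤ 1 - α := by
    refine ⟨min (ε / 4) ((1 - α) / 2), lt_min (by linarith) (by linarith), ?_, ?_⟩
    · have := min_le_left (ε / 4) ((1 - α) / 2)
      linarith
    · have := min_le_right (ε / 4) ((1 - α) / 2)
      linarith
  obtain ⟨lam, hlam⟩ : ∃ lam : ℝ, lam = (1 - α - η) / 2 := ⟨_, rfl⟩
  have hlam0 : 0 < lam := by rw [hlam]; linarith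
  have hlam2 : 2 * lam < 1 - α := by rw [hlam]; linarith
  obtain ⟨δa, hδa, hA⟩ := hINA α (α - 1 / 2 + lam) hα1 hα2 (by linarith) (by linarith)
  obtain ⟨δb, hδb, hB⟩ := hISC α lam (ε / 4) hα1 hα2 hlam0 hlam2 (by linarith)
  obtain ⟨δ, hδ0, hδa', hδb', hδε⟩ : ∃ δ : ℝ, 0 < δ ∧ δ ≤ δa ∧ δ ≤ δb ∧ 60 * δ ≤ ε := by
    refine ⟨min (min δa δb) (ε / 60), lt_min (lt_min hδa hδb) (by linarith),
      (min_le_left _ _).trans (min_le_left _ _), (min_le_left _ _).trans (min_le_right _ _), ?_⟩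
    have := min_le_right (min δa δb) (ε / 60)
    linarith
  obtain ⟨κ, N₁, hN₁⟩ := hA δ hδ0 hδa'
  obtain ⟨N₂, hN₂⟩ := hB δ hδ0 hδb'
  obtain ⟨N₃, hN₃⟩ := hIPR.1 (2 * (α - 1 / 2 + lam)) (by linarith) δ hδ0
  obtain ⟨N₄, hN₄⟩ := big_helper64 324 δ hδ0
  refine ⟨N₁ + N₂ + N₃ + N₄ + 2, ?_⟩
  intro N hN r hr2 a Q E hQ hE
  obtain ⟨s₀, hs1, hs2, hY, h2Y, h4X, h4s, hX, hQc, hQ1, hprs⟩ := hN₁ N (by omega)
  have hISCN := hN₂ N (by omega) r a Q E (fun n hn => ⟨(hE n hn).1, (hE n hn).2.1,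
    (hE n hn).2.2.2⟩)
  have hD := hN₃ N (by omega)
  have hbig := hN₄ N (by omega)
  have hN2 : (2 : ℝ) ≤ (N : ℝ) := by
    have : 2 ≤ N := by omega
    exact_mod_cast this
  have hn0 : (0 : ℝ) < (N : ℝ) := by linarith
  have hn1 : (1 : ℝ) ≤ (N : ℝ) := by linarith
  have hman := hIMAN ((N : ℝ) ^ α) ((N : ℝ) ^ (α - 1 / 2 + lam + 2 * δ))
    ((N : ℝ) ^ (2 * (α - 1 / 2 + lam))) ((N : ℝ) ^ (α - (α - 1 / 2 + lam) + 3 * δ)) s₀ κ hs1 hs2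
    hY h2Y h4X h4s hX hQc hprs
  have hitl := hITL ((N : ℝ) ^ α) ((N : ℝ) ^ (α - 1 / 2 + lam + 2 * δ))
    ((N : ℝ) ^ (2 * (α - 1 / 2 + lam))) ((N : ℝ) ^ (α - (α - 1 / 2 + lam) + 3 * δ))
    (prs ((N : ℝ) ^ (2 * (α - 1 / 2 + lam)))).card r E (thrQ ((N : ℝ) ^ α) a Q) hr2
    (fun n hn => ⟨fun p hp => hQ (mem_thrQ.1 hp).2, (hE n hn).2.2.1⟩) hman
  obtain ⟨X0, hX0⟩ : ∃ X0 : ℝ, X0 = (N : ℝ) ^ (α - 1 / 2 + lam + 2 * δ) := ⟨_, rfl⟩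
  obtain ⟨Q0, hQ0⟩ : ∃ Q0 : ℝ, Q0 = (N : ℝ) ^ (α - (α - 1 / 2 + lam) + 3 * δ) := ⟨_, rfl⟩
  obtain ⟨M, hM⟩ : ∃ M : ℝ, M = (N : ℝ) ^ α := ⟨_, rfl⟩
  obtain ⟨Y, hYd⟩ : ∃ Y : ℝ, Y = (N : ℝ) ^ (2 * (α - 1 / 2 + lam)) := ⟨_, rfl⟩
  rw [← hX0, ← hQ0, ← hM, ← hYd] at hitl hISCN
  rw [← hX0, ← hM] at h4X
  rw [← hYd] at hD
  rw [← hM] at hQ
  rw [← hQ0] at hQ1
  have hX00 : 0 < X0 := by rw [hX0]; positivity
  have hX01 : 1 ≤ X0 := by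
    rw [hX0]
    exact Real.one_le_rpow hn1 (by linarith)
  have hM0 : 0 < M := by rw [hM]; positivity
  have hXM : X0 < M := by nlinarith
  have hQ00 : 0 < Q0 := by linarith
  -- charts through a prime
  have hnch : ((∑ c ∈ Ch Q0, (VC X0 Q c).card : ℕ) : ℝ) ≤ Q.card * (81 * (N : ℝ) ^ (α + 10 * δ)) := by
    rw [NCH_sum]
    push_cast
    have h1 : ∀ p ∈ Q, (((Ch Q0).filter (fun c => ∃ x y : ℤ, x * c.1 + y * c.2 = p ∧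
        |(x : ℝ)| ≤ X0 ∧ |(y : ℝ)| ≤ X0)).card : ℝ) ≤ 81 * (N : ℝ) ^ (α + 10 * δ) := by
      intro p hp
      refine (NCH hICOP M X0 Q0 hX00.le hXM p (hQ hp)).trans ?_
      have h2 : (2 * X0 + 1) ^ 2 ≤ 9 * X0 ^ 2 := by nlinarith
      have h3 : M ≤ Q0 ^ 2 := by
        rw [hM, hQ0, ← Real.rpow_natCast, ← Real.rpow_mul hn0.le]
        apply Real.rpow_le_rpow_of_exponent_le hn1
        push_cast
        rw [hlam]
        linarith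
      have h4 : 8 * Q0 ^ 2 / M + 1 ≤ 9 * (Q0 ^ 2 / M) := by
        have h5 : 1 ≤ Q0 ^ 2 / M := by rwa [le_div_iff₀ hM0, one_mul]
        have h6 : 8 * Q0 ^ 2 / M = 8 * (Q0 ^ 2 / M) := by ring
        linarith
      have h7 : X0 ^ 2 * (Q0 ^ 2 / M) = (N : ℝ) ^ (α + 10 * δ) := by
        rw [hX0, hQ0, hM, ← Real.rpow_natCast, ← Real.rpow_mul hn0.le, ← Real.rpow_natCast,
          ← Real.rpow_mul hn0.le, ← Real.rpow_sub hn0, ← Real.rpow_add hn0]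
        congr 1
        push_cast
        ring
      calc (2 * X0 + 1) ^ 2 * (8 * Q0 ^ 2 / M + 1) ≤ (9 * X0 ^ 2) * (9 * (Q0 ^ 2 / M)) :=
            mul_le_mul h2 h4 (by positivity) (by positivity)
        _ = 81 * (X0 ^ 2 * (Q0 ^ 2 / M)) := by ring
        _ = 81 * (N : ℝ) ^ (α + 10 * δ) := by rw [h7]
    have h8 := Finset.sum_le_card_nsmul Q _ _ h1
    rw [nsmul_eq_mul] at h8
    exact h8
  obtain ⟨S, hS⟩ : ∃ S : ℝ, S = (N : ℝ) ^ (α - 1 / 2 + 2 * lam) := ⟨_, rfl⟩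
  have hS1 : S ≤ (N : ℝ) ^ (1 / 2 : ℝ) := by
    rw [hS]
    apply Real.rpow_le_rpow_of_exponent_le hn1
    rw [hlam]
    linarith
  have hS0 : 0 < S := by rw [hS]; positivity
  rw [← hS] at hISCN
  have hr0 : (0 : ℝ) ≤ (r : ℝ) := Nat.cast_nonneg r
  have hTG : ((∑ c ∈ Ch Q0, (TG X0 Y E (thrQ M a Q) c).card : ℕ) : ℝ) ≤
      (N : ℝ) ^ (ε / 4) * (((∑ c ∈ Ch Q0, (VC X0 Q c).card : ℕ) : ℝ) * (S + r)) := by
    push_cast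
    calc ∑ c ∈ Ch Q0, ((TG X0 Y E (thrQ M a Q) c).card : ℝ)
        ≤ ∑ c ∈ Ch Q0, (N : ℝ) ^ (ε / 4) * ((VC X0 Q c).card * (S + r)) :=
          Finset.sum_le_sum hISCN
      _ = (N : ℝ) ^ (ε / 4) * ((∑ c ∈ Ch Q0, ((VC X0 Q c).card : ℝ)) * (S + r)) := by
          rw [← Finset.mul_sum, ← Finset.sum_mul]
  obtain ⟨D, hDd⟩ : ∃ D : ℝ, D = (N : ℝ) ^ (α - η - δ) := ⟨_, rfl⟩
  have hD' : D ≤ ((prs Y).card : ℝ) := by
    rw [hDd]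
    refine le_trans (le_of_eq ?_) hD
    congr 1
    rw [hlam]
    ring
  have hD0 : 0 < D := by rw [hDd]; positivity
  have hitlR : (E.card : ℝ) * (r : ℝ) ^ 2 * ((prs Y).card : ℝ) ≤
      4 * ((∑ c ∈ Ch Q0, (TG X0 Y E (thrQ M a Q) c).card : ℕ) : ℝ) := by exact_mod_cast hitl
  have hfin : (E.card : ℝ) * (r : ℝ) ^ 2 * D ≤
      (N : ℝ) ^ ε * (Q.card * ((N : ℝ) ^ (1 / 2 : ℝ) + r)) * D := by
    calc (E.card : ℝ) * (r : ℝ) ^ 2 * D ≤ (E.card : ℝ) * (r : ℝ) ^ 2 * ((prs Y).card : ℝ) :=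
          mul_le_mul_of_nonneg_left hD' (by positivity)
      _ ≤ 4 * ((∑ c ∈ Ch Q0, (TG X0 Y E (thrQ M a Q) c).card : ℕ) : ℝ) := hitlR
      _ ≤ 4 * ((N : ℝ) ^ (ε / 4) * (((∑ c ∈ Ch Q0, (VC X0 Q c).card : ℕ) : ℝ) * (S + r))) := by
          apply mul_le_mul_of_nonneg_left hTG (by norm_num)
      _ ≤ 4 * ((N : ℝ) ^ (ε / 4) * ((Q.card * (81 * (N : ℝ) ^ (α + 10 * δ))) *
            ((N : ℝ) ^ (1 / 2 : ℝ) + r))) := by
          apply mul_le_mul_of_nonneg_left _ (by norm_num)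
          apply mul_le_mul_of_nonneg_left _ (by positivity)
          apply mul_le_mul hnch _ (by positivity) (by positivity)
          linarith
      _ = (324 * ((N : ℝ) ^ (ε / 4) * (N : ℝ) ^ (α + 10 * δ))) *
            (Q.card * ((N : ℝ) ^ (1 / 2 : ℝ) + r)) := by ring
      _ ≤ ((N : ℝ) ^ ε * D) * (Q.card * ((N : ℝ) ^ (1 / 2 : ℝ) + r)) := by
          apply mul_le_mul_of_nonneg_right _ (by positivity)
          calc 324 * ((N : ℝ) ^ (ε / 4) * (N : ℝ) ^ (α + 10 * δ))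
              ≤ (N : ℝ) ^ δ * ((N : ℝ) ^ (ε / 4) * (N : ℝ) ^ (α + 10 * δ)) := by
                apply mul_le_mul_of_nonneg_right hbig (by positivity)
            _ = (N : ℝ) ^ (δ + (ε / 4 + (α + 10 * δ))) := by
                rw [← Real.rpow_add hn0, ← Real.rpow_add hn0]
            _ ≤ (N : ℝ) ^ (ε + (α - η - δ)) := by
                apply Real.rpow_le_rpow_of_exponent_le hn1
                linarith
            _ = (N : ℝ) ^ ε * D := by rw [hDd, ← Real.rpow_add hn0]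
      _ = (N : ℝ) ^ ε * (Q.card * ((N : ℝ) ^ (1 / 2 : ℝ) + r)) * D := by ring
  exact le_of_mul_le_mul_right hfin hD0

end Pool.Agent.WB
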