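import Pool.Agent.helper38.WB.ILN
import Pool.Agent.helper74.WB.ISC
import Pool.Agent.helper96.WB.CL3

/-!
# Project wb, rich version: one chart

The number of flags of one chart for a set `Q` of primes, `r` free.
-/

set_option autoImplicit false

namespace Pool.Agent.WB

open Finset

/-- the primes of `Q` whose class contains `n` -/
noncomputable def thrQ (M : ℝ) (a : (p : ℕ) → ZMod p) (Q : Finset ℕ) (n : ℕ) : Finset ℕ :=
  thr M a n ∩ Q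

theorem mem_thrQ {M : ℝ} {a : (p : ℕ) → ZMod p} {Q : Finset ℕ} {n p : ℕ} :
    p ∈ thrQ M a Q n ↔ p ∈ thr M a n ∧ p ∈ Q := by
  unfold thrQ
  rw [Finset.mem_inter]

open scoped Classical in
/-- the elements of `Q` in the chart `c` -/
noncomputable def VC (X0 : ℝ) (Q : Finset ℕ) (c : ℤ × ℤ) : Finset ℕ :=
  Q.filter (fun p => ∃ x y : ℤ, x * c.1 + y * c.2 = p ∧ |(x : ℝ)| ≤ X0 ∧ |(y : ℝ)| ≤ X0)

open scoped Classical in
theorem mem_VC {X0 : ℝ} {Q : Finset ℕ} {c : ℤ × ℤ} {p : ℕ} :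
    p ∈ VC X0 Q c ↔ p ∈ Q ∧
      ∃ x y : ℤ, x * c.1 + y * c.2 = p ∧ |(x : ℝ)| ≤ X0 ∧ |(y : ℝ)| ≤ X0 := by
  unfold VC
  rw [Finset.mem_filter]

theorem VC_swap (X0 : ℝ) (Q : Finset ℕ) (q q' : ℤ) : VC X0 Q (q, q') = VC X0 Q (q', q) := by
  ext p
  rw [mem_VC, mem_VC]
  constructor
  · rintro ⟨h, x, y, h1, h2, h3⟩
    exact ⟨h, y, x, by rw [← h1]; ring, h3, h2⟩
  · rintro ⟨h, x, y, h1, h2, h3⟩
    exact ⟨h, y, x, by rw [← h1]; ring, h3, h2⟩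

def ILN3_stmt : Prop :=
  ∀ α lam ε : ℝ, 1 / 2 < α → α < 1 → 0 < lam → 2 * lam < 1 - α → 0 < ε →
    ∃ δ₁ : ℝ, 0 < δ₁ ∧ ∀ δ : ℝ, 0 < δ → δ ≤ δ₁ → ∃ N₀ : ℕ, ∀ N : ℕ, N₀ ≤ N →
      ∀ (r : ℕ) (a : (p : ℕ) → ZMod p) (Q E : Finset ℕ) (q q' : ℤ),
        (∀ n ∈ E, 1 ≤ n ∧ n ≤ N ∧ (thrQ ((N : ℝ) ^ α) a Q n).card < 2 * r) →
        IsCoprime q q' → |q| ≤ |q'| →
        |(q' : ℝ)| ≤ (N : ℝ) ^ (α - (α - 1 / 2 + lam) + 3 * δ) →
        ((TG ((N : ℝ) ^ (α - 1 / 2 + lam + 2 * δ)) ((N : ℝ) ^ (2 * (α - 1 / 2 + lam))) E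
          (thrQ ((N : ℝ) ^ α) a Q) (q, q')).card : ℝ) ≤
          (N : ℝ) ^ ε * ((VC ((N : ℝ) ^ (α - 1 / 2 + lam + 2 * δ)) Q (q, q')).card *
            ((N : ℝ) ^ (α - 1 / 2 + 2 * lam) + r))

theorem ILN3_frame (q q' : ℤ) (V V' : Finset ℕ) (x y w : ℕ → ℤ) (G G' : Finset (ℕ × ℕ × ℕ))
    (t : ℕ × ℕ × ℕ → ℤ) (h : Frame q q' V x y w G t) (hV : V' ⊆ V) (hG : G' ⊆ G)
    (hGV : ∀ g ∈ G', g.2.1 ∈ V' ∧ g.2.2 ∈ V') : Frame q q' V' x y w G' t := by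
  obtain ⟨h1, h2, h3⟩ := h
  refine ⟨fun p hp => h1 p (hV hp), fun g hg => ?_, fun g hg g' hg' => h3 g (hG hg) g' (hG hg')⟩
  obtain ⟨_, _, h4, h5⟩ := h2 g (hG hg)
  exact ⟨(hGV g hg).1, (hGV g hg).2, h4, h5⟩

theorem ILN3 (hCL3 : CL3_stmt) (hILC : ILC_stmt) (hINP : INP_stmt) (hIF1 : IF1_stmt)
    (hIF2 : IF2_stmt) (hIF3 : IF3_stmt) : ILN3_stmt := by
  intro α lam ε hα1 hα2 hlam h8 hε
  obtain ⟨δ₀, hδ₀, N₁, hN₁⟩ := hCL3 (α - 1 / 2 + lam) (ε / 2) (by linarith) (by linarith)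
    (by linarith)
  refine ⟨min (δ₀ / 20) (min ((1 - α - 2 * lam) / 12) (min lam (min (ε / 20) (1 / 100)))), ?_, ?_⟩
  · refine lt_min (by linarith) (lt_min (by linarith) (lt_min hlam (lt_min (by linarith)
      (by norm_num))))
  intro δ hδ hδ1
  have hd1 : 20 * δ ≤ δ₀ := by
    have := le_trans hδ1 (min_le_left _ _)
    linarith
  have hd2 : 12 * δ ≤ 1 - α - 2 * lam := by
    have := le_trans hδ1 (le_trans (min_le_right _ _) (min_le_left _ _))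
    linarith
  have hd3 : 20 * δ ≤ ε := by
    have := le_trans hδ1 (le_trans (min_le_right _ _) (le_trans (min_le_right _ _)
      (le_trans (min_le_right _ _) (min_le_left _ _))))
    linarith
  have hd4 : 100 * δ ≤ 1 := by
    have := le_trans hδ1 (le_trans (min_le_right _ _) (le_trans (min_le_right _ _)
      (le_trans (min_le_right _ _) (min_le_right _ _))))
    linarith
  obtain ⟨N₂, hN₂⟩ := ILN_big38 δ hδ
  refine ⟨max N₁ N₂, ?_⟩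
  intro N hN r a Q E q q' hE hcop hqq hq'
  obtain ⟨hN2, hbig⟩ := hN₂ N (le_trans (le_max_right _ _) hN)
  have hN1 := hN₁ N (le_trans (le_max_left _ _) hN) r
  obtain ⟨ξ, hξ⟩ : ∃ ξ, ξ = α - 1 / 2 + lam := ⟨_, rfl⟩
  rw [← hξ] at hN1 hq' ⊢
  have hξ0 : 0 < ξ := by rw [hξ]; linarith
  obtain ⟨n, hn⟩ : ∃ n : ℝ, n = (N : ℝ) := ⟨_, rfl⟩
  have hn1 : 1 < n := by
    rw [hn]
    have : (2 : ℝ) ≤ (N : ℝ) := by exact_mod_cast hN2
    linarith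
  have hn0 : 0 < n := by linarith
  rw [← hn] at hbig hq' ⊢
  have hr0 : (0 : ℝ) ≤ r := Nat.cast_nonneg r
  by_cases hemp : TG (n ^ (ξ + 2 * δ)) (n ^ (2 * ξ)) E (thrQ (n ^ α) a Q) (q, q') = ∅
  · rw [hemp, Finset.card_empty, Nat.cast_zero]
    positivity
  obtain ⟨M, hM⟩ : ∃ M, M = n ^ α := ⟨_, rfl⟩
  obtain ⟨X0, hX0⟩ : ∃ X0, X0 = n ^ (ξ + 2 * δ) := ⟨_, rfl⟩
  obtain ⟨Y, hY⟩ : ∃ Y, Y = n ^ (2 * ξ) := ⟨_, rfl⟩
  obtain ⟨P, hP⟩ : ∃ P, P = n ^ (2 * lam + 4 * δ) := ⟨_, rfl⟩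
  rw [← hn, ← hM] at hE
  rw [← hM, ← hX0, ← hY] at hemp ⊢
  have hM0 : 0 < M := by rw [hM]; positivity
  have hX00 : 0 < X0 := by rw [hX0]; positivity
  have hX01 : 1 ≤ X0 := by
    rw [hX0]
    exact Real.one_le_rpow hn1.le (by linarith)
  have hP1 : 1 ≤ P := by
    rw [hP]
    exact Real.one_le_rpow hn1.le (by linarith)
  have hX0sq : X0 ^ 2 = n ^ (2 * ξ + 4 * δ) := by
    rw [hX0, ← Real.rpow_natCast, ← Real.rpow_mul hn0.le]
    congr 1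
    push_cast
    ring
  have hMsq : M ^ 2 = n ^ (2 * α) := by
    rw [hM, ← Real.rpow_natCast, ← Real.rpow_mul hn0.le]
    congr 1
    push_cast
    ring
  have hPM : n * X0 ^ 2 = P * M ^ 2 := by
    rw [hX0sq, hMsq, hP, ← Real.rpow_add hn0]
    nth_rewrite 1 [← Real.rpow_one n]
    rw [← Real.rpow_add hn0]
    congr 1
    rw [hξ]
    ring
  have h4X : 4 * X0 ^ 2 < M := by
    rw [hX0sq]
    have h1 : 0 < n ^ (2 * ξ + 4 * δ) := by positivity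
    calc 4 * n ^ (2 * ξ + 4 * δ) < n ^ δ * n ^ (2 * ξ + 4 * δ) := by
          apply mul_lt_mul_of_pos_right _ h1
          linarith
      _ = n ^ (2 * ξ + 5 * δ) := by
          rw [← Real.rpow_add hn0]
          congr 1
          ring
      _ ≤ M := by
          rw [hM]
          apply Real.rpow_le_rpow_of_exponent_le hn1.le
          rw [hξ]
          linarith
  have hNM : (N : ℝ) < M ^ 2 := by
    rw [← hn, hMsq]
    calc n = n ^ (1 : ℝ) := (Real.rpow_one n).symm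
      _ < n ^ (2 * α) := Real.rpow_lt_rpow_of_exponent_lt hn1 (by linarith)
  have hTGs : TG X0 Y E (thrQ M a Q) (q, q') ⊆ TG X0 Y E (thr M a) (q, q') := by
    intro g hg
    rw [mem_TG] at hg ⊢
    exact ⟨hg.1, (mem_thrQ.1 hg.2.1).1, (mem_thrQ.1 hg.2.2.1).1, hg.2.2.2.1, hg.2.2.2.2⟩
  have hQ1 : M ≤ 2 * X0 * |(q' : ℝ)| := by
    obtain ⟨g, hg⟩ := Finset.nonempty_iff_ne_empty.2 hemp
    have hg := hTGs hg
    rw [mem_TG] at hg
    obtain ⟨_, hg2, _, _, Δ, _, x, y, x', y', h1, _, h3, h4, _⟩ := hg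
    have h5 := (mem_prs.1 (mem_thr.1 hg2).1).2.1
    have h6 : ((g.2.1 : ℕ) : ℝ) = (x : ℝ) * q + (y : ℝ) * q' := by
      have : ((x * q + y * q' : ℤ) : ℝ) = ((g.2.1 : ℤ) : ℝ) := by
        rw [← h1]
      push_cast at this
      exact this.symm
    have h7 : |(q : ℝ)| ≤ |(q' : ℝ)| := by exact_mod_cast hqq
    calc M ≤ (x : ℝ) * q + (y : ℝ) * q' := by rw [← h6]; exact h5
      _ ≤ |(x : ℝ)| * |(q : ℝ)| + |(y : ℝ)| * |(q' : ℝ)| := by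
          rw [← abs_mul, ← abs_mul]
          exact add_le_add (le_abs_self _) (le_abs_self _)
      _ ≤ X0 * |(q' : ℝ)| + X0 * |(q' : ℝ)| := by
          apply add_le_add
          · exact mul_le_mul h3 h7 (abs_nonneg _) hX00.le
          · exact mul_le_mul_of_nonneg_right h4 (abs_nonneg _)
      _ = 2 * X0 * |(q' : ℝ)| := by ring
  have hQ0 : 0 < |(q' : ℝ)| := by
    by_contra hcon
    have : |(q' : ℝ)| = 0 := le_antisymm (not_lt.1 hcon) (abs_nonneg _)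
    rw [this, mul_zero] at hQ1
    linarith
  obtain ⟨τ, hτdef⟩ : ∃ τ : ℕ, τ = ⌈6 * P⌉₊ := ⟨_, rfl⟩
  have hτ1 : 6 * P ≤ (τ : ℝ) := by
    rw [hτdef]
    exact Nat.le_ceil _
  have hτ2 : (τ : ℝ) ≤ 7 * P := by
    rw [hτdef]
    have := Nat.ceil_lt_add_one (show 0 ≤ 6 * P by linarith)
    linarith
  have hτ3 : 2 + 2 * (N / M * X0) / |(q' : ℝ)| ≤ τ := by
    have h1 : (n / M * X0) ≤ 2 * P * |(q' : ℝ)| := by
      rw [div_mul_eq_mul_div, div_le_iff₀ hM0]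
      have h2 : P * M * M ≤ P * M * (2 * X0 * |(q' : ℝ)|) :=
        mul_le_mul_of_nonneg_left hQ1 (by positivity)
      have h3 : n * X0 * X0 ≤ 2 * P * |(q' : ℝ)| * M * X0 := by
        calc n * X0 * X0 = P * M * M := by rw [mul_assoc, ← pow_two, hPM]; ring
          _ ≤ P * M * (2 * X0 * |(q' : ℝ)|) := h2
          _ = 2 * P * |(q' : ℝ)| * M * X0 := by ring
      exact le_of_mul_le_mul_right h3 hX00
    have h2 : 2 * (n / M * X0) / |(q' : ℝ)| ≤ 4 * P := by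
      rw [div_le_iff₀ hQ0]
      linarith
    rw [← hn]
    linarith
  obtain ⟨V₁, x, y, w, t, hFr₁, ht₁, hV₁, hVc₁⟩ := hILC N M X0 Y a q q' E τ hX01 h4X hNM hcop hqq
    (fun m hm => ⟨(hE m hm).1, (hE m hm).2.1⟩) hτ3
  obtain ⟨V, hVdef⟩ : ∃ V : Finset ℕ, V = V₁ ∩ Q := ⟨_, rfl⟩
  have hVV₁ : V ⊆ V₁ := by rw [hVdef]; exact Finset.inter_subset_left
  have hVC : V ⊆ VC X0 Q (q, q') := by
    intro p hp
    have hp1 := hVV₁ hp
    have hpQ : p ∈ Q := by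
      rw [hVdef, Finset.mem_inter] at hp
      exact hp.2
    rw [mem_VC]
    exact ⟨hpQ, x p, y p, (hFr₁.1 p hp1).2.1, (hV₁ p hp1).2.1, (hV₁ p hp1).2.2.1⟩
  have hGV : ∀ g ∈ TG X0 Y E (thrQ M a Q) (q, q'), g.2.1 ∈ V ∧ g.2.2 ∈ V := by
    intro g hg
    have h1 := hFr₁.2.1 g (hTGs hg)
    rw [mem_TG] at hg
    rw [hVdef, Finset.mem_inter, Finset.mem_inter]
    exact ⟨⟨h1.1, (mem_thrQ.1 hg.2.1).2⟩, ⟨h1.2.1, (mem_thrQ.1 hg.2.2.1).2⟩⟩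
  have hFr : Frame q q' V x y w (TG X0 Y E (thrQ M a Q) (q, q')) t :=
    ILN3_frame q q' V₁ V x y w _ _ t hFr₁ hVV₁ hTGs hGV
  have ht : ∀ g ∈ TG X0 Y E (thrQ M a Q) (q, q'), |t g| ≤ τ ∧
      Y ≤ ((x g.2.1 * y g.2.2 - x g.2.2 * y g.2.1).natAbs : ℝ) := fun g hg => ht₁ g (hTGs hg)
  have hV := fun p (hp : p ∈ V) => hV₁ p (hVV₁ hp)
  have hVc : (V.card : ℝ) ≤ (2 * X0 + 1) ^ 2 := by
    have h1 : (V.card : ℝ) ≤ V₁.card := by exact_mod_cast Finset.card_le_card hVV₁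
    exact h1.trans hVc₁
  have hVc9 : (V.card : ℝ) ≤ 9 * X0 ^ 2 := by
    refine hVc.trans ?_
    nlinarith
  have hcopV : ∀ p ∈ V, IsCoprime (x p) (y p) := fun p hp => (hFr.1 p hp).2.2
  have hαb : α + 2 * lam + 6 * δ ≤ 1 := by linarith
  have hboxA := ILN_box38 N n M X0 P |(q' : ℝ)| ξ α lam δ δ₀ V x y w τ τ hn hn1 hbig hM hX0 hP hq' hQ0
    hQ1 hPM hτ2 (by omega) hδ hlam hd1 hαb hcopV hV
  have hboxB := ILN_box38 N n M X0 P |(q' : ℝ)| ξ α lam δ δ₀ V x y w τ (2 * τ) hn hn1 hbig hM hX0 hP hq'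
    hQ0 hQ1 hPM hτ2 le_rfl hδ hlam hd1 hαb hcopV hV
  obtain ⟨hNPA, hcA⟩ := hINP q q' V x y w _ t τ hFr
  obtain ⟨hNPB, hcB⟩ := hINP q q' V x y w _ t (2 * τ) hFr
  have htabs : ∀ g ∈ TG X0 Y E (thrQ M a Q) (q, q'), |t g| ≤ τ := fun g hg => (ht g hg).1
  have hF1 := hIF1 q q' V x y w _ t τ hFr htabs
  obtain ⟨hF2a, hF2b, hF2c⟩ := hIF2 q q' V x y w _ t τ hFr
  have hF3 := hIF3 q q' V x y w _ t τ (4 * r ^ 2) hFr
    (ILN_flags38 X0 Y E (thrQ M a Q) (q, q') r (fun m hm => (hE m hm).2.2))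
  obtain ⟨m, hm⟩ : ∃ m : ℕ, m = V.card * (2 * (2 * τ) + 1) := ⟨_, rfl⟩
  have hmR : (m : ℝ) ≤ 261 * (X0 ^ 2 * P) := by
    have h2 : (2 * (2 * (τ : ℝ)) + 1) ≤ 29 * P := by linarith
    rw [hm]
    push_cast
    calc (V.card : ℝ) * (2 * (2 * (τ : ℝ)) + 1) ≤ (9 * X0 ^ 2) * (29 * P) :=
          mul_le_mul hVc9 h2 (by positivity) (by positivity)
      _ = 261 * (X0 ^ 2 * P) := by ring
  have hXP : X0 ^ 2 * P = n ^ (2 * ξ + 2 * lam + 8 * δ) := by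
    rw [hX0sq, hP, ← Real.rpow_add hn0]
    congr 1
    ring
  have hmN : m ≤ N ^ 2 := by
    have h1 : (m : ℝ) ≤ (N : ℝ) ^ 2 := by
      calc (m : ℝ) ≤ 261 * (X0 ^ 2 * P) := hmR
        _ ≤ n ^ δ * (X0 ^ 2 * P) := by
            apply mul_le_mul_of_nonneg_right _ (by positivity)
            linarith
        _ = n ^ (2 * ξ + 2 * lam + 9 * δ) := by
            rw [hXP, ← Real.rpow_add hn0]
            congr 1
            ring
        _ ≤ n ^ ((2 : ℕ) : ℝ) := by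
            apply Real.rpow_le_rpow_of_exponent_le hn1.le
            push_cast
            rw [hξ]
            linarith
        _ = (N : ℝ) ^ 2 := by rw [Real.rpow_natCast, hn]
    exact_mod_cast h1
  have hcA' : (FA V x y w τ).card ≤ m := by
    rw [hm]
    exact hcA.trans (Nat.mul_le_mul_left _ (by omega))
  have hcB' : (FA V x y w (2 * τ)).card ≤ m := by
    rw [hm]
    exact hcB
  have key := hN1 m hmN (FA V x y w τ) (FA V x y w (2 * τ))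
    (FF x y w (TG X0 Y E (thrQ M a Q) (q, q')) t τ)
    (fun e he => ⟨(hF1 e he).1, (hF1 e he).2.1⟩) hboxA hboxB hcA' hcB' hNPA hNPB
    (by
      intro e he
      obtain ⟨_, _, h3, g, hg, h4⟩ := hF1 e he
      refine ⟨?_, ?_, h3⟩
      · rw [h4]
        exact (hFr.2.1 g hg).2.2.1
      · rw [h4, ← hn]
        refine le_trans ?_ (ht g hg).2
        rw [hY]
        exact Real.rpow_le_rpow_of_exponent_le hn1.le (by linarith))
    hF2a hF2b hF3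
  rw [hF2c, ← hn] at key
  push_cast at key
  obtain ⟨S, hS⟩ : ∃ S, S = n ^ (α - 1 / 2 + 2 * lam) := ⟨_, rfl⟩
  have hS0 : 0 < S := by rw [hS]; positivity
  have hsqm : Real.sqrt m ≤ 17 * (n ^ (4 * δ) * S) := by
    have h1 : (17 * (n ^ (4 * δ) * S)) ^ 2 = 289 * (X0 ^ 2 * P) := by
      rw [hXP, hS, ← Real.rpow_add hn0, mul_pow, ← Real.rpow_natCast (n ^ _), ← Real.rpow_mul hn0.le]
      norm_num
      congr 1
      rw [hξ]
      ring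
    rw [Real.sqrt_le_left (by positivity), h1]
    have : 0 ≤ X0 ^ 2 * P := by positivity
    linarith
  have hξS : n ^ ξ ≤ n ^ (4 * δ) * S := by
    rw [hS, ← Real.rpow_add hn0]
    apply Real.rpow_le_rpow_of_exponent_le hn1.le
    rw [hξ]
    linarith
  have h1n4 : 1 ≤ n ^ (4 * δ) := Real.one_le_rpow hn1.le (by linarith)
  have hsum : Real.sqrt m + r + n ^ ξ ≤ 18 * n ^ (4 * δ) * (S + r) := by
    have h1 : (r : ℝ) ≤ n ^ (4 * δ) * r := by nlinarith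
    nlinarith
  have hmV : (m : ℝ) ≤ 2 * (2 * (τ : ℝ) + 1) * V.card := by
    rw [hm]
    push_cast
    have : (0 : ℝ) ≤ V.card := Nat.cast_nonneg _
    nlinarith
  have hVC' : (V.card : ℝ) ≤ (VC X0 Q (q, q')).card := by exact_mod_cast Finset.card_le_card hVC
  rw [← hS]
  have h1 : ((TG X0 Y E (thrQ M a Q) (q, q')).card : ℝ) * (2 * (τ : ℝ) + 1) ≤
      (n ^ ε * ((VC X0 Q (q, q')).card * (S + r))) * (2 * (τ : ℝ) + 1) := by
    calc ((TG X0 Y E (thrQ M a Q) (q, q')).card : ℝ) * (2 * (τ : ℝ) + 1)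
        ≤ n ^ (ε / 2) * ((m : ℝ) * (Real.sqrt m + r + n ^ ξ)) := key
      _ ≤ n ^ (ε / 2) * ((2 * (2 * (τ : ℝ) + 1) * (VC X0 Q (q, q')).card) *
            (18 * n ^ (4 * δ) * (S + r))) := by
          apply mul_le_mul_of_nonneg_left _ (by positivity)
          apply mul_le_mul _ hsum (by positivity) (by positivity)
          refine hmV.trans ?_
          exact mul_le_mul_of_nonneg_left hVC' (by positivity)
      _ = (n ^ (ε / 2) * (36 * n ^ (4 * δ))) * ((VC X0 Q (q, q')).card * (S + r)) *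
            (2 * (τ : ℝ) + 1) := by ring
      _ ≤ n ^ ε * ((VC X0 Q (q, q')).card * (S + r)) * (2 * (τ : ℝ) + 1) := by
          apply mul_le_mul_of_nonneg_right _ (by positivity)
          apply mul_le_mul_of_nonneg_right _ (by positivity)
          calc n ^ (ε / 2) * (36 * n ^ (4 * δ)) ≤ n ^ (ε / 2) * (n ^ δ * n ^ (4 * δ)) := by
                apply mul_le_mul_of_nonneg_left _ (by positivity)
                apply mul_le_mul_of_nonneg_right _ (by positivity)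
                linarith
            _ = n ^ (ε / 2 + (δ + 4 * δ)) := by
                rw [← Real.rpow_add hn0, ← Real.rpow_add hn0]
            _ ≤ n ^ ε := Real.rpow_le_rpow_of_exponent_le hn1.le (by linarith)
  exact le_of_mul_le_mul_right h1 (by positivity)

def ISC3_stmt : Prop :=
  ∀ α lam ε : ℝ, 1 / 2 < α → α < 1 → 0 < lam → 2 * lam < 1 - α → 0 < ε →
    ∃ δ₁ : ℝ, 0 < δ₁ ∧ ∀ δ : ℝ, 0 < δ → δ ≤ δ₁ → ∃ N₀ : ℕ, ∀ N : ℕ, N₀ ≤ N →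
      ∀ (r : ℕ) (a : (p : ℕ) → ZMod p) (Q E : Finset ℕ),
        (∀ n ∈ E, 1 ≤ n ∧ n ≤ N ∧ (thrQ ((N : ℝ) ^ α) a Q n).card < 2 * r) →
        ∀ c ∈ Ch ((N : ℝ) ^ (α - (α - 1 / 2 + lam) + 3 * δ)),
        ((TG ((N : ℝ) ^ (α - 1 / 2 + lam + 2 * δ)) ((N : ℝ) ^ (2 * (α - 1 / 2 + lam))) E
          (thrQ ((N : ℝ) ^ α) a Q) c).card : ℝ) ≤
          (N : ℝ) ^ ε * ((VC ((N : ℝ) ^ (α - 1 / 2 + lam + 2 * δ)) Q c).card *
            ((N : ℝ) ^ (α - 1 / 2 + 2 * lam) + r))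

theorem ISC3 (hILN : ILN3_stmt) : ISC3_stmt := by
  intro α lam ε h1 h2 h3 h4 h5
  obtain ⟨δ₁, hδ₁, h⟩ := hILN α lam ε h1 h2 h3 h4 h5
  refine ⟨δ₁, hδ₁, fun δ h6 h7 => ?_⟩
  obtain ⟨N₀, hN⟩ := h δ h6 h7
  refine ⟨N₀, fun N hN0 r a Q E hE c hc => ?_⟩
  rw [mem_Ch] at hc
  obtain ⟨q, q'⟩ := c
  simp only at hc
  rcases le_total |q| |q'| with hle | hle
  · exact hN N hN0 r a Q E q q' hE hc.2.2 hle hc.2.1
  · rw [TG_swap74, VC_swap]
    exact hN N hN0 r a Q E q' q hE hc.2.2.symm hle hc.1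

end Pool.Agent.WB
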