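import Pool.Agent.helper64.WB.INA
import Pool.Agent.helper96.WB.ILN3

/-!
# Project wb, rich version: the number of charts that contain a given prime
-/

set_option autoImplicit false

namespace Pool.Agent.WB

open Finset

theorem NCH_box (Q : ℝ) (hQ : 0 ≤ Q) : ((Icc (-⌊Q⌋) ⌊Q⌋).card : ℝ) ≤ 2 * Q + 1 := by
  have h0 : 0 ≤ ⌊Q⌋ := Int.floor_nonneg.mpr hQ
  have h1 : (⌊Q⌋ : ℝ) ≤ Q := Int.floor_le Q
  rw [Int.card_Icc]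
  have h2 : (((⌊Q⌋ + 1 - -⌊Q⌋).toNat : ℤ)) = 2 * ⌊Q⌋ + 1 := by
    rw [Int.toNat_of_nonneg (by linarith)]
    ring
  have h3 : (((⌊Q⌋ + 1 - -⌊Q⌋).toNat : ℕ) : ℝ) = 2 * (⌊Q⌋ : ℝ) + 1 := by
    exact_mod_cast h2
  rw [h3]
  linarith

theorem NCH_fib (p : ℕ) (x y : ℤ) (Q0 M : ℝ) (hM : 0 < M) (hMp : M ≤ (p : ℝ))
    (hcop : IsCoprime x y) (hxy : |y| ≤ |x|) (S : Finset (ℤ × ℤ))
    (hS : ∀ c ∈ S, |(c.1 : ℝ)| ≤ Q0 ∧ |(c.2 : ℝ)| ≤ Q0 ∧ x * c.1 + y * c.2 = p) :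
    (S.card : ℝ) ≤ 8 * Q0 ^ 2 / M + 1 := by
  rcases S.eq_empty_or_nonempty with h0 | ⟨c0, hc0⟩
  · rw [h0, Finset.card_empty, Nat.cast_zero]
    have : 0 ≤ 8 * Q0 ^ 2 / M := by positivity
    linarith
  obtain ⟨h1, h2, h3⟩ := hS c0 hc0
  have h3R : (x : ℝ) * c0.1 + (y : ℝ) * c0.2 = (p : ℝ) := by
    have : ((x * c0.1 + y * c0.2 : ℤ) : ℝ) = ((p : ℤ) : ℝ) := by rw [h3]
    push_cast at this
    exact this
  have hxyR : |(y : ℝ)| ≤ |(x : ℝ)| := by exact_mod_cast hxy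
  have hQn : 0 ≤ Q0 := (abs_nonneg _).trans h1
  have h4 : M ≤ 2 * Q0 * |(x : ℝ)| := by
    calc M ≤ (x : ℝ) * c0.1 + (y : ℝ) * c0.2 := by rw [h3R]; exact hMp
      _ ≤ |(x : ℝ)| * |(c0.1 : ℝ)| + |(y : ℝ)| * |(c0.2 : ℝ)| := by
          rw [← abs_mul, ← abs_mul]
          exact add_le_add (le_abs_self _) (le_abs_self _)
      _ ≤ |(x : ℝ)| * Q0 + |(x : ℝ)| * Q0 := by
          apply add_le_add
          · exact mul_le_mul_of_nonneg_left h1 (abs_nonneg _)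
          · exact mul_le_mul hxyR h2 (abs_nonneg _) (abs_nonneg _)
      _ = 2 * Q0 * |(x : ℝ)| := by ring
  have hx0 : 0 < |(x : ℝ)| := by
    by_contra hcon
    have : |(x : ℝ)| = 0 := le_antisymm (not_lt.1 hcon) (abs_nonneg _)
    rw [this, mul_zero] at h4
    linarith
  have hxne : x ≠ 0 := by
    intro h
    rw [h] at hx0
    simp at hx0
  have hdvd : ∀ c ∈ S, x ∣ c0.2 - c.2 := by
    intro c hc
    obtain ⟨_, _, h7⟩ := hS c hc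
    have h8 : y * (c0.2 - c.2) = x * (c.1 - c0.1) := by
      have : x * c0.1 + y * c0.2 = x * c.1 + y * c.2 := by rw [h3, h7]
      linarith
    have h9 : x ∣ y * (c0.2 - c.2) := ⟨_, h8⟩
    exact hcop.dvd_of_dvd_mul_left h9
  have hcard : S.card ≤ (Icc (-⌊2 * Q0 / |(x : ℝ)|⌋) ⌊2 * Q0 / |(x : ℝ)|⌋).card := by
    apply Finset.card_le_card_of_injOn (fun c => (c0.2 - c.2) / x)
    · intro c hc
      rw [Finset.mem_coe] at hc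
      obtain ⟨h5, h6, h7⟩ := hS c hc
      obtain ⟨t, ht⟩ := hdvd c hc
      simp only [Finset.coe_Icc, Set.mem_Icc]
      rw [abs_le_floor, ht, Int.mul_ediv_cancel_left _ hxne, le_div_iff₀ hx0]
      have h8 : (t : ℝ) * (x : ℝ) = (c0.2 : ℝ) - c.2 := by
        have : ((c0.2 - c.2 : ℤ) : ℝ) = ((x * t : ℤ) : ℝ) := by rw [ht]
        push_cast at this
        linarith
      rw [← abs_mul, h8]
      have h9 := abs_sub (c0.2 : ℝ) (c.2 : ℝ)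
      linarith
    · intro c hc c' hc' hcc
      rw [Finset.mem_coe] at hc hc'
      simp only at hcc
      obtain ⟨t, ht⟩ := hdvd c hc
      obtain ⟨t', ht'⟩ := hdvd c' hc'
      rw [ht, ht', Int.mul_ediv_cancel_left _ hxne, Int.mul_ediv_cancel_left _ hxne] at hcc
      rw [hcc] at ht
      have h10 : c.2 = c'.2 := by linarith
      have h11 : x * c.1 = x * c'.1 := by
        have h12 := (hS c hc).2.2
        have h13 := (hS c' hc').2.2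
        rw [h10] at h12
        linarith
      exact Prod.ext (mul_left_cancel₀ hxne h11) h10
  have h5 : (S.card : ℝ) ≤ 2 * (2 * Q0 / |(x : ℝ)|) + 1 := by
    refine le_trans ?_ (NCH_box (2 * Q0 / |(x : ℝ)|) (by positivity))
    exact_mod_cast hcard
  refine h5.trans ?_
  have h6 : 2 * (2 * Q0 / |(x : ℝ)|) ≤ 8 * Q0 ^ 2 / M := by
    rw [le_div_iff₀ hM, mul_div_assoc', div_mul_eq_mul_div, div_le_iff₀ hx0]
    nlinarith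
  linarith

open scoped Classical in
theorem NCH (hICOP : ICOP_stmt) (M X0 Q0 : ℝ) (hX0 : 0 ≤ X0) (hXM : X0 < M) (p : ℕ)
    (hp : p ∈ prs M) :
    (((Ch Q0).filter (fun c => ∃ x y : ℤ, x * c.1 + y * c.2 = p ∧ |(x : ℝ)| ≤ X0 ∧
      |(y : ℝ)| ≤ X0)).card : ℝ) ≤ (2 * X0 + 1) ^ 2 * (8 * Q0 ^ 2 / M + 1) := by
  have hM : 0 < M := lt_of_le_of_lt hX0 hXM
  have hpp := mem_prs.1 hp
  have hsub : ((Ch Q0).filter (fun c => ∃ x y : ℤ, x * c.1 + y * c.2 = p ∧ |(x : ℝ)| ≤ X0 ∧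
      |(y : ℝ)| ≤ X0)) ⊆ ((Icc (-⌊X0⌋) ⌊X0⌋) ×ˢ (Icc (-⌊X0⌋) ⌊X0⌋)).biUnion
        (fun z => (Ch Q0).filter (fun c => z.1 * c.1 + z.2 * c.2 = (p : ℤ))) := by
    intro c hc
    rw [Finset.mem_filter] at hc
    obtain ⟨hc1, x, y, h1, h2, h3⟩ := hc
    rw [Finset.mem_biUnion]
    refine ⟨(x, y), ?_, ?_⟩
    · rw [Finset.mem_product, Finset.mem_Icc, Finset.mem_Icc, abs_le_floor, abs_le_floor]
      exact ⟨h2, h3⟩
    · rw [Finset.mem_filter]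
      exact ⟨hc1, h1⟩
  have hB0 : (0 : ℝ) ≤ 8 * Q0 ^ 2 / M + 1 := by positivity
  have hfib : ∀ z ∈ ((Icc (-⌊X0⌋) ⌊X0⌋) ×ˢ (Icc (-⌊X0⌋) ⌊X0⌋)),
      (((Ch Q0).filter (fun c => z.1 * c.1 + z.2 * c.2 = (p : ℤ))).card : ℝ) ≤
        8 * Q0 ^ 2 / M + 1 := by
    rintro ⟨x, y⟩ hz
    rw [Finset.mem_product, Finset.mem_Icc, Finset.mem_Icc, abs_le_floor, abs_le_floor] at hz
    simp only at hz ⊢
    rcases ((Ch Q0).filter (fun c => x * c.1 + y * c.2 = (p : ℤ))).eq_empty_or_nonempty with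
      h0 | ⟨c0, hc0⟩
    · rw [h0, Finset.card_empty, Nat.cast_zero]
      exact hB0
    rw [Finset.mem_filter] at hc0
    have hMp : M ≤ (p : ℝ) := hpp.2.1
    have hxp : |x| < (p : ℤ) := by
      have : |(x : ℝ)| < (p : ℝ) := by linarith [hz.1]
      exact_mod_cast this
    have hyp : |y| < (p : ℤ) := by
      have : |(y : ℝ)| < (p : ℝ) := by linarith [hz.2]
      exact_mod_cast this
    have hcop := hICOP p c0.1 c0.2 x y hpp.1 hc0.2 hxp hyp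
    rcases le_total |y| |x| with hle | hle
    · apply NCH_fib p x y Q0 M hM hMp hcop hle
      intro c hc
      rw [Finset.mem_filter, mem_Ch] at hc
      exact ⟨hc.1.1, hc.1.2.1, hc.2⟩
    · have h := NCH_fib p y x Q0 M hM hMp hcop.symm hle
        (((Ch Q0).filter (fun c => x * c.1 + y * c.2 = (p : ℤ))).image Prod.swap) (by
          intro c hc
          rw [Finset.mem_image] at hc
          obtain ⟨d, hd, rfl⟩ := hc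
          rw [Finset.mem_filter, mem_Ch] at hd
          refine ⟨hd.1.2.1, hd.1.1, ?_⟩
          rw [← hd.2]
          simp only [Prod.fst_swap, Prod.snd_swap]
          ring)
      rwa [Finset.card_image_of_injective _ Prod.swap_injective] at h
  calc (((Ch Q0).filter (fun c => ∃ x y : ℤ, x * c.1 + y * c.2 = p ∧ |(x : ℝ)| ≤ X0 ∧
      |(y : ℝ)| ≤ X0)).card : ℝ)
      ≤ ((((Icc (-⌊X0⌋) ⌊X0⌋) ×ˢ (Icc (-⌊X0⌋) ⌊X0⌋)).biUnion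
        (fun z => (Ch Q0).filter (fun c => z.1 * c.1 + z.2 * c.2 = (p : ℤ)))).card : ℝ) := by
        exact_mod_cast Finset.card_le_card hsub
    _ ≤ ((∑ z ∈ ((Icc (-⌊X0⌋) ⌊X0⌋) ×ˢ (Icc (-⌊X0⌋) ⌊X0⌋)),
          ((Ch Q0).filter (fun c => z.1 * c.1 + z.2 * c.2 = (p : ℤ))).card : ℕ) : ℝ) := by
        exact_mod_cast Finset.card_biUnion_le
    _ = ∑ z ∈ ((Icc (-⌊X0⌋) ⌊X0⌋) ×ˢ (Icc (-⌊X0⌋) ⌊X0⌋)),
          (((Ch Q0).filter (fun c => z.1 * c.1 + z.2 * c.2 = (p : ℤ))).card : ℝ) := by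
        push_cast
        rfl
    _ ≤ ∑ _z ∈ ((Icc (-⌊X0⌋) ⌊X0⌋) ×ˢ (Icc (-⌊X0⌋) ⌊X0⌋)), (8 * Q0 ^ 2 / M + 1) :=
        Finset.sum_le_sum hfib
    _ = (((Icc (-⌊X0⌋) ⌊X0⌋).card : ℝ) * ((Icc (-⌊X0⌋) ⌊X0⌋).card : ℝ)) *
          (8 * Q0 ^ 2 / M + 1) := by
        rw [Finset.sum_const, nsmul_eq_mul, Finset.card_product]
        push_cast
        ring
    _ ≤ (2 * X0 + 1) ^ 2 * (8 * Q0 ^ 2 / M + 1) := by
        apply mul_le_mul_of_nonneg_right _ hB0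
        have h := NCH_box X0 hX0
        have h0 : (0 : ℝ) ≤ ((Icc (-⌊X0⌋) ⌊X0⌋).card : ℝ) := Nat.cast_nonneg _
        nlinarith

open scoped Classical in
/-- exchange of sums: charts and elements of `Q` -/
theorem NCH_sum (X0 Q0 : ℝ) (Q : Finset ℕ) :
    ∑ c ∈ Ch Q0, (VC X0 Q c).card = ∑ p ∈ Q, ((Ch Q0).filter (fun c => ∃ x y : ℤ,
      x * c.1 + y * c.2 = p ∧ |(x : ℝ)| ≤ X0 ∧ |(y : ℝ)| ≤ X0)).card := by
  have h1 : ∀ c ∈ Ch Q0, (VC X0 Q c).card = ∑ p ∈ Q, if (∃ x y : ℤ,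
      x * c.1 + y * c.2 = p ∧ |(x : ℝ)| ≤ X0 ∧ |(y : ℝ)| ≤ X0) then 1 else 0 := by
    intro c _
    rw [Finset.card_eq_sum_ones, ← Finset.sum_filter]
    rfl
  rw [Finset.sum_congr rfl h1, Finset.sum_comm]
  apply Finset.sum_congr rfl
  intro p _
  rw [Finset.card_eq_sum_ones, ← Finset.sum_filter]

/-- numerics for every `ξ` with `2 ξ < α` -/
def INA3_stmt : Prop :=
  ∀ α ξ : ℝ, 1 / 2 < α → α < 1 → 0 < ξ → 2 * ξ < α →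
    ∃ δ₁ : ℝ, 0 < δ₁ ∧ ∀ δ : ℝ, 0 < δ → δ ≤ δ₁ → ∃ (κ : ℕ) (N₀ : ℕ), ∀ N : ℕ, N₀ ≤ N →
      ∃ s₀ : ℝ, 1 ≤ s₀ ∧ s₀ ≤ (N : ℝ) ^ α ∧ 1 < (N : ℝ) ^ (2 * ξ) ∧
        2 * (N : ℝ) ^ (2 * ξ) ≤ (N : ℝ) ^ α ∧ 4 * ((N : ℝ) ^ (ξ + 2 * δ)) ^ 2 < (N : ℝ) ^ α ∧
        4 * s₀ * (N : ℝ) ^ α < ((N : ℝ) ^ (2 * ξ)) ^ (κ + 1) ∧
        2 * (N : ℝ) ^ (2 * ξ) / s₀ + Real.sqrt (2 * (N : ℝ) ^ (2 * ξ)) ≤ (N : ℝ) ^ (ξ + 2 * δ) ∧
        4 * (N : ℝ) ^ (ξ + 2 * δ) * (N : ℝ) ^ α / (N : ℝ) ^ (2 * ξ) ≤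
          (N : ℝ) ^ (α - ξ + 3 * δ) ∧
        1 ≤ (N : ℝ) ^ (α - ξ + 3 * δ) ∧
        2 * (κ * (2 * s₀ + 1) ^ 2) ≤ ((prs ((N : ℝ) ^ (2 * ξ))).card : ℝ)

theorem INA3 (hIPR : IPR_stmt) : INA3_stmt := by
  intro α ξ hα hα1 hξ h2ξ
  have hδ₁ : 0 < min ((α - 2 * ξ) / 20) (ξ / 4) := lt_min (by linarith) (by linarith)
  refine ⟨min ((α - 2 * ξ) / 20) (ξ / 4), hδ₁, ?_⟩
  intro δ hδ hδle
  have hδa : δ ≤ (α - 2 * ξ) / 20 := hδle.trans (min_le_left _ _)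
  have hδx : δ ≤ ξ / 4 := hδle.trans (min_le_right _ _)
  set κ : ℕ := ⌈1 / ξ⌉₊ with hκ
  have hκξ : 1 ≤ (κ : ℝ) * ξ := by
    have h1 : 1 / ξ ≤ (κ : ℝ) := Nat.le_ceil _
    rwa [div_le_iff₀ hξ] at h1
  obtain ⟨N1, hN1⟩ := big_helper64 2 ((α - 2 * ξ) / 4) (by linarith)
  obtain ⟨N2, hN2⟩ := big_helper64 5 ((α - 2 * ξ) / 20) (by linarith)
  obtain ⟨N3, hN3⟩ := big_helper64 5 (1 + ξ) (by linarith)
  obtain ⟨N4, hN4⟩ := big_helper64 4 (δ / 2) (by linarith)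
  obtain ⟨N5, hN5⟩ := big_helper64 (18 * κ) (2 * δ) (by linarith)
  obtain ⟨N6, hN6⟩ := hIPR.1 (2 * ξ) (by linarith) δ hδ
  refine ⟨κ, 2 + N1 + N2 + N3 + N4 + N5 + N6, ?_⟩
  intro N hN
  have hNr : (2 : ℝ) ≤ (N : ℝ) := by
    have : 2 ≤ N := by omega
    exact_mod_cast this
  have hN0 : (0 : ℝ) < (N : ℝ) := by linarith
  have hNge1 : (1 : ℝ) ≤ (N : ℝ) := by linarith
  have hNgt1 : (1 : ℝ) < (N : ℝ) := by linarith
  have b1 := hN1 N (by omega)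
  have b2 := hN2 N (by omega)
  have b3 := hN3 N (by omega)
  have b4 := hN4 N (by omega)
  have b5 := hN5 N (by omega)
  have b6 := hN6 N (by omega)
  have mono : ∀ a b : ℝ, a ≤ b → (N : ℝ) ^ a ≤ (N : ℝ) ^ b := fun a b h =>
    Real.rpow_le_rpow_of_exponent_le hNge1 h
  have pos : ∀ a : ℝ, 0 < (N : ℝ) ^ a := fun a => Real.rpow_pos_of_pos hN0 a
  have hmul : ∀ a b : ℝ, (N : ℝ) ^ a * (N : ℝ) ^ b = (N : ℝ) ^ (a + b) := fun a b =>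
    (Real.rpow_add hN0 a b).symm
  refine ⟨(N : ℝ) ^ (ξ - 3 * δ / 2), ?_, ?_, ?_, ?_, ?_, ?_, ?_, ?_, ?_, ?_⟩
  · exact Real.one_le_rpow hNge1 (by linarith)
  · exact mono _ _ (by linarith)
  · exact Real.one_lt_rpow hNgt1 (by linarith)
  · calc 2 * (N : ℝ) ^ (2 * ξ) ≤ (N : ℝ) ^ ((α - 2 * ξ) / 4) * (N : ℝ) ^ (2 * ξ) :=
          mul_le_mul_of_nonneg_right b1 (pos _).le
      _ = (N : ℝ) ^ ((α - 2 * ξ) / 4 + 2 * ξ) := hmul _ _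
      _ ≤ (N : ℝ) ^ α := mono _ _ (by linarith)
  · have h1 : ((N : ℝ) ^ (ξ + 2 * δ)) ^ 2 = (N : ℝ) ^ (2 * ξ + 4 * δ) := by
      rw [sq, hmul]
      congr 1
      ring
    rw [h1]
    calc 4 * (N : ℝ) ^ (2 * ξ + 4 * δ) < 5 * (N : ℝ) ^ (2 * ξ + 4 * δ) :=
          mul_lt_mul_of_pos_right (by norm_num) (pos _)
      _ ≤ (N : ℝ) ^ ((α - 2 * ξ) / 20) * (N : ℝ) ^ (2 * ξ + 4 * δ) :=
          mul_le_mul_of_nonneg_right b2 (pos _).le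
      _ = (N : ℝ) ^ ((α - 2 * ξ) / 20 + (2 * ξ + 4 * δ)) := hmul _ _
      _ ≤ (N : ℝ) ^ α := mono _ _ (by linarith)
  · have h1 : ((N : ℝ) ^ (2 * ξ)) ^ (κ + 1) = (N : ℝ) ^ (2 * ξ * ((κ : ℝ) + 1)) := by
      rw [← Real.rpow_natCast, ← Real.rpow_mul hN0.le]
      push_cast
      rfl
    rw [h1]
    calc 4 * (N : ℝ) ^ (ξ - 3 * δ / 2) * (N : ℝ) ^ α
        = 4 * (N : ℝ) ^ (ξ - 3 * δ / 2 + α) := by rw [mul_assoc, hmul]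
      _ < 5 * (N : ℝ) ^ (ξ - 3 * δ / 2 + α) := mul_lt_mul_of_pos_right (by norm_num) (pos _)
      _ ≤ (N : ℝ) ^ (1 + ξ) * (N : ℝ) ^ (ξ - 3 * δ / 2 + α) :=
          mul_le_mul_of_nonneg_right b3 (pos _).le
      _ = (N : ℝ) ^ (1 + ξ + (ξ - 3 * δ / 2 + α)) := hmul _ _
      _ ≤ (N : ℝ) ^ (2 * ξ * ((κ : ℝ) + 1)) := by
          apply mono
          nlinarith
  · have h1 : 2 * (N : ℝ) ^ (2 * ξ) / (N : ℝ) ^ (ξ - 3 * δ / 2) =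
        2 * (N : ℝ) ^ (ξ + 3 * δ / 2) := by
      rw [mul_div_assoc, ← Real.rpow_sub hN0]
      congr 2
      ring
    have h2 : Real.sqrt (2 * (N : ℝ) ^ (2 * ξ)) ≤ 2 * (N : ℝ) ^ (ξ + 3 * δ / 2) := by
      have h3 : Real.sqrt (2 * (N : ℝ) ^ (2 * ξ)) ≤ 2 * (N : ℝ) ^ ξ := by
        rw [Real.sqrt_le_left (by positivity)]
        have h4 : (2 * (N : ℝ) ^ ξ) ^ 2 = 4 * (N : ℝ) ^ (2 * ξ) := by
          rw [mul_pow, sq ((N : ℝ) ^ ξ), hmul]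
          norm_num
          ring_nf
        rw [h4]
        have := pos (2 * ξ)
        linarith
      have h5 := mono ξ (ξ + 3 * δ / 2) (by linarith)
      linarith
    rw [h1]
    calc 2 * (N : ℝ) ^ (ξ + 3 * δ / 2) + Real.sqrt (2 * (N : ℝ) ^ (2 * ξ))
        ≤ 4 * (N : ℝ) ^ (ξ + 3 * δ / 2) := by linarith
      _ ≤ (N : ℝ) ^ (δ / 2) * (N : ℝ) ^ (ξ + 3 * δ / 2) :=
          mul_le_mul_of_nonneg_right b4 (pos _).le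
      _ = (N : ℝ) ^ (δ / 2 + (ξ + 3 * δ / 2)) := hmul _ _
      _ ≤ (N : ℝ) ^ (ξ + 2 * δ) := mono _ _ (by linarith)
  · have h1 : 4 * (N : ℝ) ^ (ξ + 2 * δ) * (N : ℝ) ^ α / (N : ℝ) ^ (2 * ξ) =
        4 * (N : ℝ) ^ (α - ξ + 2 * δ) := by
      rw [mul_assoc, hmul, mul_div_assoc, ← Real.rpow_sub hN0]
      congr 2
      ring
    rw [h1]
    have b4' : (4 : ℝ) ≤ (N : ℝ) ^ δ := b4.trans (mono _ _ (by linarith))
    calc 4 * (N : ℝ) ^ (α - ξ + 2 * δ) ≤ (N : ℝ) ^ δ * (N : ℝ) ^ (α - ξ + 2 * δ) :=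
          mul_le_mul_of_nonneg_right b4' (pos _).le
      _ = (N : ℝ) ^ (δ + (α - ξ + 2 * δ)) := hmul _ _
      _ ≤ (N : ℝ) ^ (α - ξ + 3 * δ) := mono _ _ (by linarith)
  · exact Real.one_le_rpow hNge1 (by linarith)
  · refine le_trans ?_ b6
    have hs1 : 1 ≤ (N : ℝ) ^ (ξ - 3 * δ / 2) := Real.one_le_rpow hNge1 (by linarith)
    have h1 : (2 * (N : ℝ) ^ (ξ - 3 * δ / 2) + 1) ^ 2 ≤ 9 * (N : ℝ) ^ (2 * ξ - 3 * δ) := by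
      have h2 : (N : ℝ) ^ (2 * ξ - 3 * δ) =
          (N : ℝ) ^ (ξ - 3 * δ / 2) * (N : ℝ) ^ (ξ - 3 * δ / 2) := by
        rw [hmul]
        congr 1
        ring
      rw [h2]
      nlinarith
    have hκ0 : (0 : ℝ) ≤ (κ : ℝ) := Nat.cast_nonneg _
    calc 2 * ((κ : ℝ) * (2 * (N : ℝ) ^ (ξ - 3 * δ / 2) + 1) ^ 2)
        ≤ 2 * ((κ : ℝ) * (9 * (N : ℝ) ^ (2 * ξ - 3 * δ))) := by
          apply mul_le_mul_of_nonneg_left _ (by norm_num)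
          exact mul_le_mul_of_nonneg_left h1 hκ0
      _ = (18 * κ) * (N : ℝ) ^ (2 * ξ - 3 * δ) := by ring
      _ ≤ (N : ℝ) ^ (2 * δ) * (N : ℝ) ^ (2 * ξ - 3 * δ) :=
          mul_le_mul_of_nonneg_right b5 (pos _).le
      _ = (N : ℝ) ^ (2 * δ + (2 * ξ - 3 * δ)) := hmul _ _
      _ ≤ (N : ℝ) ^ (2 * ξ - δ) := mono _ _ (by linarith)

end Pool.Agent.WB
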