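import Pool.Agent.helper96.WB.NUMB

/-!
# Project wb, rich version: numerics for the chart lemma `CL3_stmt`
-/

set_option autoImplicit false

namespace Pool.Agent.WB

open Filter

theorem NUM3_log (δ : ℝ) (hδ : 0 < δ) : ∃ N₀ : ℕ, ∀ N : ℕ, N₀ ≤ N → ∀ a : ℕ, 1 ≤ a → a ≤ N ^ 2 →
    ((Nat.log 2 a : ℝ) + 1) ≤ (N : ℝ) ^ δ := by
  have h1 := (isLittleO_log_rpow_atTop hδ).bound (show (0 : ℝ) < 1 / 10 by norm_num)
  have h2 := (tendsto_rpow_atTop hδ).eventually_ge_atTop 10
  have h3 := (tendsto_natCast_atTop_atTop (R := ℝ)).eventually (h1.and h2)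
  obtain ⟨N₁, hN₁⟩ := eventually_atTop.1 h3
  refine ⟨max N₁ 1, ?_⟩
  intro N hN a ha1 ha
  have hN1 : 1 ≤ N := (le_max_right _ _).trans hN
  obtain ⟨hlog, hpow⟩ := hN₁ N ((le_max_left _ _).trans hN)
  have hNr : (1 : ℝ) ≤ N := by exact_mod_cast hN1
  have hN0 : (0 : ℝ) < N := by linarith
  have hlog' : Real.log N ≤ 1 / 10 * (N : ℝ) ^ δ := by
    have h4 : ‖Real.log (N : ℝ)‖ = Real.log N := by
      rw [Real.norm_eq_abs, abs_of_nonneg (Real.log_nonneg hNr)]
    have h5 : ‖(N : ℝ) ^ δ‖ = (N : ℝ) ^ δ := by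
      rw [Real.norm_eq_abs, abs_of_nonneg (Real.rpow_nonneg hN0.le _)]
    rw [h4, h5] at hlog
    exact hlog
  have ha0 : (0 : ℝ) < a := by exact_mod_cast ha1
  have hla : (Nat.log 2 a : ℝ) * Real.log 2 ≤ Real.log a := by
    have h6 : 2 ^ (Nat.log 2 a) ≤ a := Nat.pow_log_le_self 2 (by omega)
    have h7 : ((2 : ℝ)) ^ (Nat.log 2 a) ≤ a := by exact_mod_cast h6
    have h8 := Real.log_le_log (by positivity) h7
    rw [Real.log_pow] at h8
    exact h8
  have hla2 : Real.log a ≤ 2 * Real.log N := by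
    have h9 : (a : ℝ) ≤ (N : ℝ) ^ 2 := by exact_mod_cast ha
    have h10 := Real.log_le_log ha0 h9
    rw [Real.log_pow] at h10
    push_cast at h10
    exact h10
  have hlg2 : (0.6931471803 : ℝ) < Real.log 2 := Real.log_two_gt_d9
  have h11 : (0 : ℝ) ≤ Nat.log 2 a := by positivity
  nlinarith

theorem NUM3_C (a b n t D r X R E L ξ s : ℝ) (hξ : 0 < ξ) (hL : 260 ≤ L) (hLξ : 3 / ξ < L)
    (hE : L ^ 10 ≤ E) (hn : 0 < n) (ha : 0 < a) (han : a ≤ n) (hr : 0 ≤ r) (hX : 0 ≤ X)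
    (hs : 0 < s) (hsn : s ^ 2 = n) (hR : R = s + r + X) (ht0 : 0 < t)
    (ht : E ^ 2 / L ^ 2 * R ≤ t) (htb : E ^ 2 / L ^ 2 * (n * R) ≤ t * b)
    (hD : D ≤ L ^ 5 * a / t) (hD64 : 64 ≤ D) :
    2 * (a * (L ^ 3 * ((4 * D + 8) / ξ)) + 4 * r ^ 2 * D + 2 * t * (E * (D ^ 2 + D * X))) <
      t * b := by
  have hL0 : 0 < L := by linarith
  have hL1 : 1 ≤ L := by linarith
  have hE0 : 0 < E := lt_of_lt_of_le (by positivity) hE
  have hR0 : 0 < R := by rw [hR]; linarith
  obtain ⟨P, hP⟩ : ∃ P, P = E ^ 2 / L ^ 2 := ⟨_, rfl⟩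
  rw [← hP] at ht htb
  have hP0 : 0 < P := by rw [hP]; positivity
  have hPL : P * L ^ 2 = E ^ 2 := by rw [hP]; field_simp
  have hD0 : 0 < D := by linarith
  -- P is large
  have hPE : E * L ^ 8 ≤ P := by
    have h1 : E * L ^ 8 * L ^ 2 ≤ P * L ^ 2 := by
      rw [hPL]
      calc E * L ^ 8 * L ^ 2 = E * L ^ 10 := by ring
        _ ≤ E * E := mul_le_mul_of_nonneg_left hE hE0.le
        _ = E ^ 2 := by ring
    exact le_of_mul_le_mul_right h1 (by positivity)
  have hPL8 : L ^ 18 ≤ P := by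
    refine le_trans ?_ hPE
    calc L ^ 18 = L ^ 10 * L ^ 8 := by ring
      _ ≤ E * L ^ 8 := mul_le_mul_of_nonneg_right hE (by positivity)
  have hDt : D * t ≤ L ^ 5 * n := by
    rw [le_div_iff₀ ht0] at hD
    refine hD.trans ?_
    exact mul_le_mul_of_nonneg_left han (by positivity)
  have hDPR : D * (P * R) ≤ L ^ 5 * n := by
    refine le_trans ?_ hDt
    exact mul_le_mul_of_nonneg_left ht hD0.le
  have hsR : n ≤ R ^ 2 := by
    rw [← hsn]
    have : s ≤ R := by rw [hR]; linarith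
    exact pow_le_pow_left₀ hs.le this 2
  have hrR : r ≤ R := by rw [hR]; linarith
  have hXR : X ≤ R := by rw [hR]; linarith
  obtain ⟨Z, hZ⟩ : ∃ Z, Z = P * (n * R) := ⟨_, rfl⟩
  rw [← hZ] at htb
  have hZ0 : 0 < Z := by rw [hZ]; positivity
  have hPR0 : 0 < P * R := by positivity
  -- comparison of constants
  have hL2 : (67600 : ℝ) ≤ L ^ 2 := by nlinarith
  have hP2 : L ^ 11 ≤ P ^ 2 := by
    calc L ^ 11 ≤ L ^ 36 := pow_le_pow_right₀ hL1 (by norm_num)
      _ = (L ^ 18) ^ 2 := by ring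
      _ ≤ P ^ 2 := pow_le_pow_left₀ (by positivity) hPL8 2
  have key : ∀ T : ℝ, T * (P * R) ≤ L ^ 9 * n * R ^ 2 * 4 → T ≤ Z / 16 := by
    intro T hT
    have h1 : T * (P * R) ≤ Z / 16 * (P * R) := by
      refine hT.trans ?_
      have h2 : Z / 16 * (P * R) = P ^ 2 / 16 * (n * R ^ 2) := by rw [hZ]; ring
      rw [h2]
      have h3 : L ^ 9 * n * R ^ 2 * 4 = (4 * L ^ 9) * (n * R ^ 2) := by ring
      rw [h3]
      apply mul_le_mul_of_nonneg_right _ (by positivity)
      have h4 : 64 * L ^ 9 ≤ L ^ 11 := by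
        calc 64 * L ^ 9 ≤ L ^ 2 * L ^ 9 :=
              mul_le_mul_of_nonneg_right (by linarith) (by positivity)
          _ = L ^ 11 := by ring
      linarith
    exact le_of_mul_le_mul_right h1 hPR0
  -- T1
  have hT1 : a * (L ^ 3 * ((4 * D + 8) / ξ)) ≤ Z / 16 := by
    have h1 : (4 * D + 8) / ξ ≤ 2 * D * L := by
      rw [div_le_iff₀ hξ]
      rw [div_lt_iff₀ hξ] at hLξ
      have h2 : 4 * D + 8 ≤ 2 * D * 3 := by linarith
      have h3 : 2 * D * 3 ≤ 2 * D * (L * ξ) := mul_le_mul_of_nonneg_left hLξ.le (by positivity)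
      linarith
    have h4 : a * (L ^ 3 * ((4 * D + 8) / ξ)) ≤ n * (L ^ 3 * (2 * D * L)) := by
      apply mul_le_mul han _ (by positivity) hn.le
      exact mul_le_mul_of_nonneg_left h1 (by positivity)
    refine h4.trans (key _ ?_)
    calc n * (L ^ 3 * (2 * D * L)) * (P * R) = 2 * n * L ^ 4 * (D * (P * R)) := by ring
      _ ≤ 2 * n * L ^ 4 * (L ^ 5 * n) := mul_le_mul_of_nonneg_left hDPR (by positivity)
      _ = 2 * (L ^ 9 * n) * n := by ring
      _ ≤ 2 * (L ^ 9 * n) * R ^ 2 := mul_le_mul_of_nonneg_left hsR (by positivity)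
      _ ≤ L ^ 9 * n * R ^ 2 * 4 := by
          have : 0 ≤ L ^ 9 * n * R ^ 2 := by positivity
          linarith
  have hT2 : 4 * r ^ 2 * D ≤ Z / 16 := by
    apply key
    calc 4 * r ^ 2 * D * (P * R) = 4 * r ^ 2 * (D * (P * R)) := by ring
      _ ≤ 4 * r ^ 2 * (L ^ 5 * n) := mul_le_mul_of_nonneg_left hDPR (by positivity)
      _ ≤ 4 * R ^ 2 * (L ^ 5 * n) := by
          apply mul_le_mul_of_nonneg_right _ (by positivity)
          have := pow_le_pow_left₀ hr hrR 2
          linarith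
      _ ≤ 4 * R ^ 2 * (L ^ 9 * n) := by
          apply mul_le_mul_of_nonneg_left _ (by positivity)
          apply mul_le_mul_of_nonneg_right _ hn.le
          exact pow_le_pow_right₀ hL1 (by norm_num)
      _ = L ^ 9 * n * R ^ 2 * 4 := by ring
  have hT3 : 2 * t * (E * D ^ 2) ≤ Z / 16 := by
    have h1 : 2 * t * (E * D ^ 2) * (P * R) ≤ Z / 16 * (P * R) := by
      have h2 : Z / 16 * (P * R) = P ^ 2 / 16 * (n * R ^ 2) := by rw [hZ]; ring
      rw [h2]
      calc 2 * t * (E * D ^ 2) * (P * R) = 2 * E * (D * t) * (D * (P * R)) := by ring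
        _ ≤ 2 * E * (L ^ 5 * n) * (L ^ 5 * n) := by
            apply mul_le_mul _ hDPR (by positivity) (by positivity)
            exact mul_le_mul_of_nonneg_left hDt (by positivity)
        _ = 2 * (E * L ^ 10) * n * n := by ring
        _ ≤ 2 * (E * L ^ 10) * n * R ^ 2 := mul_le_mul_of_nonneg_left hsR (by positivity)
        _ = 2 * (E * L ^ 10) * (n * R ^ 2) := by ring
        _ ≤ P ^ 2 / 16 * (n * R ^ 2) := by
            apply mul_le_mul_of_nonneg_right _ (by positivity)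
            have h3 : (E * L ^ 8) * L ^ 18 ≤ P * P := mul_le_mul hPE hPL8 (by positivity) hP0.le
            have h4 : 32 * (E * L ^ 10) ≤ (E * L ^ 8) * L ^ 18 := by
              calc 32 * (E * L ^ 10) ≤ L ^ 2 * (E * L ^ 10) :=
                    mul_le_mul_of_nonneg_right (by linarith) (by positivity)
                _ = E * L ^ 12 := by ring
                _ ≤ E * L ^ 26 := mul_le_mul_of_nonneg_left
                    (pow_le_pow_right₀ hL1 (by norm_num)) hE0.le
                _ = (E * L ^ 8) * L ^ 18 := by ring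
            have h5 : P ^ 2 = P * P := by ring
            linarith
    exact le_of_mul_le_mul_right h1 hPR0
  have hT4 : 2 * t * (E * (D * X)) ≤ Z / 16 := by
    calc 2 * t * (E * (D * X)) = 2 * E * X * (D * t) := by ring
      _ ≤ 2 * E * X * (L ^ 5 * n) := mul_le_mul_of_nonneg_left hDt (by positivity)
      _ ≤ 2 * E * R * (L ^ 5 * n) := by
          apply mul_le_mul_of_nonneg_right _ (by positivity)
          exact mul_le_mul_of_nonneg_left hXR (by positivity)
      _ = (2 * (E * L ^ 5)) * (n * R) := by ring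
      _ ≤ (P / 16) * (n * R) := by
          apply mul_le_mul_of_nonneg_right _ (by positivity)
          have h6 : 32 * (E * L ^ 5) ≤ E * L ^ 8 := by
            calc 32 * (E * L ^ 5) ≤ L ^ 2 * (E * L ^ 5) :=
                  mul_le_mul_of_nonneg_right (by linarith) (by positivity)
              _ = E * L ^ 7 := by ring
              _ ≤ E * L ^ 8 := mul_le_mul_of_nonneg_left
                  (pow_le_pow_right₀ hL1 (by norm_num)) hE0.le
          linarith
      _ = Z / 16 := by rw [hZ]; ring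
  have hsum : 2 * (a * (L ^ 3 * ((4 * D + 8) / ξ)) + 4 * r ^ 2 * D +
      2 * t * (E * (D ^ 2 + D * X))) = 2 * (a * (L ^ 3 * ((4 * D + 8) / ξ))) +
      2 * (4 * r ^ 2 * D) + 2 * (2 * t * (E * D ^ 2)) + 2 * (2 * t * (E * (D * X))) := by ring
  rw [hsum]
  linarith

end Pool.Agent.WB
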